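import Pool.Agent.Lib.MP_eee3e4_an.Dixmier

set_option autoImplicit false

/-!
# The Dixmier approximation property of a factor
-/

namespace Pool.Agent.Lib.MP_eee3e4_an

open InnerProductSpace Filter Topology

variable {H : Type*} [NormedAddCommGroup H] [InnerProductSpace ℂ H] [CompleteSpace H]
variable {A : StarSubalgebra ℂ (H →L[ℂ] H)}

theorem mul_star_of_projection {v : H →L[ℂ] H} (h : star v * v * (star v * v) = star v * v) :
    v * star v * v = v := by
  have h1 : star (v * star v * v - v) * (v * star v * v - v) = 0 := by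
    rw [star_sub, star_mul, star_mul, star_star]
    have : (star v * (v * star v) - star v) * (v * star v * v - v) =
        (star v * v * (star v * v)) * (star v * v) - star v * v * (star v * v) -
          star v * v * (star v * v) + star v * v := by noncomm_ring
    rw [this, h, h]
    abel
  exact sub_eq_zero.1 ((CStarRing.star_mul_self_eq_zero_iff _).1 h1)

/-- The basic step: averaging shrinks the spectral interval by the factor `3 / 4`. -/
theorem exists_contract
    (hA : Set.centralizer (Set.centralizer (A : Set (H →L[ℂ] H))) = (A : Set (H →L[ℂ] H)))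
    (hfac : ∀ z ∈ A, (∀ a ∈ A, z * a = a * z) → ∃ c : ℂ, z = c • (1 : H →L[ℂ] H))
    {x : H →L[ℂ] H} (hx : x ∈ A) (hxs : IsSelfAdjoint x) {α β : ℝ} (hαβ : α ≤ β)
    (h1 : algebraMap ℝ _ α ≤ x) (h2 : x ≤ algebraMap ℝ _ β) :
    ∃ v, Good A v ∧ ∃ α' β' : ℝ, α ≤ α' ∧ α' ≤ β' ∧ β' ≤ β ∧ β' - α' = 3 / 4 * (β - α) ∧
      algebraMap ℝ _ α' ≤ avg v x ∧ avg v x ≤ algebraMap ℝ _ β' := by
  set m : ℝ := (α + β) / 2 with hm
  set F : H →L[ℂ] H := cfc (fun t : ℝ => max (t - m) 0) x with hF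
  set N : H →L[ℂ] H := cfc (fun t : ℝ => max (m - t) 0) x with hN
  have hFA : F ∈ A := cfc_mem hA hx _
  have hFs : star F = F := (IsSelfAdjoint.cfc (f := fun t : ℝ => max (t - m) 0) (a := x)).star_eq
  have hNs : star N = N := (IsSelfAdjoint.cfc (f := fun t : ℝ => max (m - t) 0) (a := x)).star_eq
  have hF0 : 0 ≤ F := cfc_nonneg fun t _ => le_max_right _ _
  have hN0 : 0 ≤ N := cfc_nonneg fun t _ => le_max_right _ _
  have hNF : N * F = 0 := by
    rw [hN, hF, ← cfc_mul (fun t : ℝ => max (m - t) 0) (fun t : ℝ => max (t - m) 0) x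
      (by fun_prop) (by fun_prop)]
    have : (fun t : ℝ => max (m - t) 0 * max (t - m) 0) = fun _ => 0 := by
      funext t
      rcases le_total t m with h | h
      · rw [max_eq_right (by linarith : t - m ≤ 0), mul_zero]
      · rw [max_eq_right (by linarith : m - t ≤ 0), zero_mul]
    rw [this, cfc_const_zero]
  have hFN : F - N = x - algebraMap ℝ _ m := by
    rw [hN, hF, ← cfc_sub (fun t : ℝ => max (t - m) 0) (fun t : ℝ => max (m - t) 0) x
      (by fun_prop) (by fun_prop)]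
    have h3 : (fun t : ℝ => max (t - m) 0 - max (m - t) 0) = fun t => t - m := by
      funext t
      rcases le_total t m with h | h
      · rw [max_eq_right (by linarith : t - m ≤ 0), max_eq_left (by linarith : 0 ≤ m - t)]
        ring
      · rw [max_eq_right (by linarith : m - t ≤ 0), max_eq_left (by linarith : 0 ≤ t - m)]
        ring
    rw [h3, cfc_sub (fun t : ℝ => t) (fun _ => m) x (by fun_prop) (by fun_prop),
      cfc_id' ℝ x, cfc_const m x]
  set p : H →L[ℂ] H := rp F with hp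
  have hpA : p ∈ A := rp_mem hA hFA
  have hps : star p = p := star_rp F
  have hpp : p * p = p := rp_mul_rp F
  have hpF : p * F = F := rp_mul F
  have hFp : F * p = F := by
    have := congrArg star hpF
    rwa [star_mul, hps, hFs] at this
  have hNp : N * p = 0 := mul_rp_eq_zero hNF
  have hpN : p * N = 0 := by
    have := congrArg star hNp
    rwa [star_mul, hps, hNs, star_zero] at this
  -- upper bound
  have hup : x ≤ algebraMap ℝ _ m + (β - m) • p := by
    have h3 : F - N ≤ algebraMap ℝ _ (β - m) := by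
      rw [hFN, map_sub]
      exact sub_le_sub_right h2 _
    have h4 := star_right_conjugate_le_conjugate h3 p
    rw [hps, mul_sub, sub_mul, hpN, zero_mul, sub_zero, hpF, hFp, ← Algebra.commutes, mul_assoc,
      hpp, ← Algebra.smul_def] at h4
    have h5 : x = algebraMap ℝ _ m + (F - N) := by rw [hFN]; abel
    rw [h5]
    gcongr
    exact (sub_le_self F hN0).trans h4
  -- lower bound
  have hlow : algebraMap ℝ _ m - (m - α) • (1 - p) ≤ x := by
    have h3 : N - F ≤ algebraMap ℝ _ (m - α) := by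
      rw [← neg_sub, hFN, neg_sub, map_sub]
      exact sub_le_sub_left h1 _
    have h4 := star_right_conjugate_le_conjugate h3 (1 - p)
    have hqs : star (1 - p) = 1 - p := by rw [star_sub, star_one, hps]
    have hqq : (1 - p) * (1 - p) = 1 - p := by
      rw [mul_sub, sub_mul, sub_mul, hpp, one_mul, mul_one, one_mul]
      abel
    have h5 : (1 - p) * (N - F) * (1 - p) = N := by
      have h7 : (1 - p) * (N - F) * (1 - p) =
          N - F - p * N + p * F - N * p + F * p + p * N * p - p * F * p := by noncomm_ring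
      rw [h7, hpN, hpF, hNp, hFp, zero_mul]
      abel
    rw [hqs, h5, ← Algebra.commutes, mul_assoc, hqq, ← Algebra.smul_def] at h4
    have h6 : x = algebraMap ℝ _ m - N + F := by
      have : x = algebraMap ℝ _ m + (F - N) := by rw [hFN]; abel
      rw [this]
      abel
    rw [h6]
    calc algebraMap ℝ _ m - (m - α) • (1 - p) ≤ algebraMap ℝ _ m - N := sub_le_sub_left h4 _
      _ ≤ algebraMap ℝ _ m - N + F := le_add_of_nonneg_right hF0
  rcases comparison hA hfac hpA hps hpp with ⟨v, hvA, hvv, hpv⟩ | ⟨v, hvA, hvv, hpv⟩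
  · have hgood : Good A v := by
      refine ⟨hvA, mul_star_of_projection (by rw [hvv, hpp]), ?_⟩
      have h3 : v * star v * v = v := mul_star_of_projection (by rw [hvv, hpp])
      have h4 : p * v = 0 := by
        rw [sub_mul, one_mul] at hpv
        have : v - p * v = v := hpv
        exact sub_eq_self.1 this
      have h5 : v * p = v := by rw [← hvv, ← mul_assoc, h3]
      calc v * v = v * p * v := by rw [h5]
        _ = v * (p * v) := mul_assoc _ _ _
        _ = 0 := by rw [h4, mul_zero]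
    refine ⟨v, hgood, α, m + (β - m) / 2, le_rfl, ?_, ?_, ?_, ?_, ?_⟩
    · simp only [hm]; linarith
    · simp only [hm]; linarith
    · simp only [hm]; ring
    · have := avg_le (v := v) h1
      rwa [avg_algebraMap hgood] at this
    · refine avg_upper hgood (by simp only [hm]; linarith) ?_
      rw [hvv]
      exact hup
  · have hqq : (1 - p) * (1 - p) = 1 - p := by
      rw [mul_sub, sub_mul, sub_mul, hpp, one_mul, mul_one, one_mul]
      abel
    have hgood : Good A v := by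
      refine ⟨hvA, mul_star_of_projection (by rw [hvv, hqq]), ?_⟩
      have h3 : v * star v * v = v := mul_star_of_projection (by rw [hvv, hqq])
      have h4 : (1 - p) * v = 0 := by rw [sub_mul, one_mul, hpv, sub_self]
      have h5 : v * (1 - p) = v := by rw [← hvv, ← mul_assoc, h3]
      calc v * v = v * (1 - p) * v := by rw [h5]
        _ = v * ((1 - p) * v) := mul_assoc _ _ _
        _ = 0 := by rw [h4, mul_zero]
    refine ⟨v, hgood, m - (m - α) / 2, β, ?_, ?_, le_rfl, ?_, ?_, ?_⟩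
    · simp only [hm]; linarith
    · simp only [hm]; linarith
    · simp only [hm]; ring
    · refine avg_lower hgood (by simp only [hm]; linarith) ?_
      rw [hvv]
      exact hlow
    · have := avg_le (v := v) h2
      rwa [avg_algebraMap hgood] at this

/-- Finite compositions of averages. -/
inductive IsAvg (A : StarSubalgebra ℂ (H →L[ℂ] H)) : ((H →L[ℂ] H) → (H →L[ℂ] H)) → Prop
  | refl : IsAvg A (fun x => x)
  | step (v : H →L[ℂ] H) (Φ : (H →L[ℂ] H) → (H →L[ℂ] H)) (hv : Good A v) (h : IsAvg A Φ) :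
      IsAvg A (fun x => avg v (Φ x))

namespace IsAvg

theorem comp {Φ Ψ : (H →L[ℂ] H) → (H →L[ℂ] H)} (h : IsAvg A Φ) (h' : IsAvg A Ψ) :
    IsAvg A (fun x => Ψ (Φ x)) := by
  induction h' with
  | refl => exact h
  | step v Ψ hv _ ih => exact IsAvg.step v _ hv ih

theorem mem {Φ : (H →L[ℂ] H) → (H →L[ℂ] H)} (h : IsAvg A Φ) {x : H →L[ℂ] H} (hx : x ∈ A) :
    Φ x ∈ A := by
  induction h with
  | refl => exact hx
  | step v Φ hv _ ih => exact avg_mem hv ih

theorem add {Φ : (H →L[ℂ] H) → (H →L[ℂ] H)} (h : IsAvg A Φ) (x y : H →L[ℂ] H) :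
    Φ (x + y) = Φ x + Φ y := by
  induction h with
  | refl => rfl
  | step v Φ hv _ ih =>
    change avg v (Φ (x + y)) = avg v (Φ x) + avg v (Φ y)
    rw [ih, avg_add]

theorem smul {Φ : (H →L[ℂ] H) → (H →L[ℂ] H)} (h : IsAvg A Φ) (c : ℂ) (x : H →L[ℂ] H) :
    Φ (c • x) = c • Φ x := by
  induction h with
  | refl => rfl
  | step v Φ hv _ ih =>
    change avg v (Φ (c • x)) = c • avg v (Φ x)
    rw [ih, avg_smul]

theorem isSelfAdjoint {Φ : (H →L[ℂ] H) → (H →L[ℂ] H)} (h : IsAvg A Φ) {x : H →L[ℂ] H}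
    (hx : IsSelfAdjoint x) : IsSelfAdjoint (Φ x) := by
  induction h with
  | refl => exact hx
  | step v Φ hv _ ih =>
    change star (avg v (Φ x)) = avg v (Φ x)
    rw [avg_star, ih.star_eq]

theorem upper {Φ : (H →L[ℂ] H) → (H →L[ℂ] H)} (h : IsAvg A Φ) {x : H →L[ℂ] H} {β : ℝ}
    (hx : x ≤ algebraMap ℝ _ β) : Φ x ≤ algebraMap ℝ _ β := by
  induction h with
  | refl => exact hx
  | step v Φ hv _ ih =>
    have := avg_le (v := v) ih
    rwa [avg_algebraMap hv] at this

theorem lower {Φ : (H →L[ℂ] H) → (H →L[ℂ] H)} (h : IsAvg A Φ) {x : H →L[ℂ] H} {α : ℝ}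
    (hx : algebraMap ℝ _ α ≤ x) : algebraMap ℝ _ α ≤ Φ x := by
  induction h with
  | refl => exact hx
  | step v Φ hv _ ih =>
    have := avg_le (v := v) ih
    rwa [avg_algebraMap hv] at this

end IsAvg

/-- Iterating the basic step. -/
theorem exists_contract_iter
    (hA : Set.centralizer (Set.centralizer (A : Set (H →L[ℂ] H))) = (A : Set (H →L[ℂ] H)))
    (hfac : ∀ z ∈ A, (∀ a ∈ A, z * a = a * z) → ∃ c : ℂ, z = c • (1 : H →L[ℂ] H))
    {x : H →L[ℂ] H} (hx : x ∈ A) (hxs : IsSelfAdjoint x) {α β : ℝ} (hαβ : α ≤ β)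
    (h1 : algebraMap ℝ _ α ≤ x) (h2 : x ≤ algebraMap ℝ _ β) (n : ℕ) :
    ∃ Φ, IsAvg A Φ ∧ ∃ α' β' : ℝ, α ≤ α' ∧ α' ≤ β' ∧ β' ≤ β ∧ β' - α' = (3 / 4) ^ n * (β - α) ∧
      algebraMap ℝ _ α' ≤ Φ x ∧ Φ x ≤ algebraMap ℝ _ β' := by
  induction n with
  | zero => exact ⟨_, IsAvg.refl, α, β, le_rfl, hαβ, le_rfl, by ring, h1, h2⟩
  | succ n ih =>
    obtain ⟨Φ, hΦ, α', β', e1, e2, e3, e4, e5, e6⟩ := ih
    obtain ⟨v, hv, α'', β'', f1, f2, f3, f4, f5, f6⟩ :=
      exists_contract hA hfac (hΦ.mem hx) (hΦ.isSelfAdjoint hxs) e2 e5 e6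
    refine ⟨_, IsAvg.step v Φ hv hΦ, α'', β'', e1.trans f1, f2, f3.trans e3, ?_, f5, f6⟩
    rw [f4, e4, pow_succ]
    ring

theorem norm_sub_le_of_mem_interval {x : H →L[ℂ] H} {α β : ℝ} (hαβ : α ≤ β)
    (h1 : algebraMap ℝ _ α ≤ x) (h2 : x ≤ algebraMap ℝ _ β) :
    ‖x - algebraMap ℝ _ α‖ ≤ β - α := by
  have h3 : 0 ≤ x - algebraMap ℝ _ α := sub_nonneg.2 h1
  rw [CStarAlgebra.norm_le_iff_le_algebraMap _ (sub_nonneg.2 hαβ) h3, map_sub]
  exact sub_le_sub_right h2 _

/-- The Dixmier approximation property. -/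
theorem dixmier
    (hA : Set.centralizer (Set.centralizer (A : Set (H →L[ℂ] H))) = (A : Set (H →L[ℂ] H)))
    (hfac : ∀ z ∈ A, (∀ a ∈ A, z * a = a * z) → ∃ c : ℂ, z = c • (1 : H →L[ℂ] H))
    {x : H →L[ℂ] H} (hx : x ∈ A) :
    ∃ R : ℝ, ∀ ε > 0, ∃ Φ, IsAvg A Φ ∧ ∃ c : ℂ, ‖c‖ ≤ R ∧ ‖Φ x - c • 1‖ ≤ ε := by
  -- real and imaginary parts
  set h : H →L[ℂ] H := (1 / 2 : ℂ) • (x + star x) with hh
  set k : H →L[ℂ] H := (-Complex.I / 2 : ℂ) • (x - star x) with hk
  have hxA' : star x ∈ A := star_mem hx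
  have hhA : h ∈ A := A.smul_mem (add_mem hx hxA') _
  have hkA : k ∈ A := A.smul_mem (sub_mem hx hxA') _
  have hhs : IsSelfAdjoint h := by
    change star h = h
    rw [hh, star_smul, star_add, star_star, add_comm]
    congr 1
    simp
  have hks : IsSelfAdjoint k := by
    change star k = k
    rw [hk, star_smul, star_sub, star_star]
    have : star (-Complex.I / 2 : ℂ) = -(-Complex.I / 2 : ℂ) := by
      simp [neg_div]
    rw [this, neg_smul, ← smul_neg, neg_sub]
  have hxhk : x = h + Complex.I • k := by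
    rw [hh, hk, smul_smul]
    have : Complex.I * (-Complex.I / 2) = 1 / 2 := by
      rw [neg_div, mul_neg, ← mul_div_assoc, Complex.I_mul_I]
      norm_num
    rw [this, ← smul_add]
    have h1 : x + star x + (x - star x) = (2 : ℂ) • x := by rw [two_smul]; abel
    rw [h1, smul_smul]
    norm_num
  -- bounds
  have hbh1 : algebraMap ℝ _ (-‖h‖) ≤ h := by
    rw [map_neg]
    exact hhs.neg_algebraMap_norm_le_self
  have hbh2 : h ≤ algebraMap ℝ _ ‖h‖ := hhs.le_algebraMap_norm_self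
  have hbk1 : algebraMap ℝ _ (-‖k‖) ≤ k := by
    rw [map_neg]
    exact hks.neg_algebraMap_norm_le_self
  have hbk2 : k ≤ algebraMap ℝ _ ‖k‖ := hks.le_algebraMap_norm_self
  refine ⟨‖h‖ + ‖k‖, fun ε hε => ?_⟩
  have hlim : Tendsto (fun n : ℕ => (3 / 4 : ℝ) ^ n * (2 * ‖h‖ + 2 * ‖k‖)) atTop (𝓝 0) := by
    have := (tendsto_pow_atTop_nhds_zero_of_lt_one (by norm_num : (0 : ℝ) ≤ 3 / 4)
      (by norm_num)).mul_const (2 * ‖h‖ + 2 * ‖k‖)
    rwa [zero_mul] at this
  obtain ⟨n, hn⟩ := (hlim.eventually_lt_const hε).exists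
  obtain ⟨Φ, hΦ, α₁, β₁, e1, e2, e3, e4, e5, e6⟩ :=
    exists_contract_iter hA hfac hhA hhs (by linarith [norm_nonneg h]) hbh1 hbh2 n
  obtain ⟨Ψ, hΨ, α₂, β₂, f1, f2, f3, f4, f5, f6⟩ :=
    exists_contract_iter hA hfac (hΦ.mem hkA) (hΦ.isSelfAdjoint hks)
      (by linarith [norm_nonneg k]) (hΦ.lower hbk1) (hΦ.upper hbk2) n
  have g5 := hΨ.lower e5
  have g6 := hΨ.upper e6
  refine ⟨_, hΦ.comp hΨ, (α₁ : ℂ) + Complex.I * α₂, ?_, ?_⟩
  · refine (norm_add_le _ _).trans ?_
    rw [norm_mul, Complex.norm_I, one_mul, Complex.norm_real, Complex.norm_real]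
    gcongr
    · rw [Real.norm_eq_abs, abs_le]
      exact ⟨e1, e2.trans e3⟩
    · rw [Real.norm_eq_abs, abs_le]
      exact ⟨f1, f2.trans f3⟩
  · have h1 : Ψ (Φ x) = Ψ (Φ h) + Complex.I • Ψ (Φ k) := by
      conv_lhs => rw [hxhk]
      rw [hΦ.add h (Complex.I • k), hΦ.smul Complex.I k, hΨ.add (Φ h), hΨ.smul Complex.I (Φ k)]
    have h2 : Ψ (Φ x) - ((α₁ : ℂ) + Complex.I * α₂) • (1 : H →L[ℂ] H) =
        (Ψ (Φ h) - algebraMap ℝ _ α₁) + Complex.I • (Ψ (Φ k) - algebraMap ℝ _ α₂) := by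
      rw [h1, add_smul, mul_smul, Algebra.algebraMap_eq_smul_one, Algebra.algebraMap_eq_smul_one,
        smul_sub, Complex.coe_smul, Complex.coe_smul]
      abel
    rw [h2]
    refine (norm_add_le _ _).trans ?_
    rw [norm_smul, Complex.norm_I, one_mul]
    have h3 := norm_sub_le_of_mem_interval e2 g5 g6
    have h4 := norm_sub_le_of_mem_interval f2 f5 f6
    rw [e4] at h3
    rw [f4] at h4
    have h5 : (3 / 4 : ℝ) ^ n * (‖h‖ - -‖h‖) + (3 / 4 : ℝ) ^ n * (‖k‖ - -‖k‖) =
        (3 / 4 : ℝ) ^ n * (2 * ‖h‖ + 2 * ‖k‖) := by ring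
    linarith

end Pool.Agent.Lib.MP_eee3e4_an
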