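import Pool.Agent.Lib.MP_eee3e4_an.Sum

set_option autoImplicit false

/-!
# Comparison of a projection with its complement in a factor
-/

namespace Pool.Agent.Lib.MP_eee3e4_an

open InnerProductSpace Filter Topology

variable {H : Type*} [NormedAddCommGroup H] [InnerProductSpace ℂ H] [CompleteSpace H]
variable {A : StarSubalgebra ℂ (H →L[ℂ] H)}

/-- Admissible families of partial isometries from `p` to `q`. -/
def AdmFam (A : StarSubalgebra ℂ (H →L[ℂ] H)) (p q : H →L[ℂ] H) (𝒱 : Set (H →L[ℂ] H)) : Prop :=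
  (∀ w ∈ 𝒱, w ∈ A ∧ w ≠ 0 ∧ w * star w * w = w ∧ w * p = w ∧ q * w = w) ∧
    ∀ w₁ ∈ 𝒱, ∀ w₂ ∈ 𝒱, w₁ ≠ w₂ → star w₁ * w₂ = 0 ∧ w₁ * star w₂ = 0

theorem AdmFam.isOrthFam {p q : H →L[ℂ] H} {𝒱 : Set (H →L[ℂ] H)} (h : AdmFam A p q 𝒱) :
    IsOrthFam 𝒱 where
  pi := fun w hw => (h.1 w hw).2.2.1
  left := fun w₁ h₁ w₂ h₂ hne => (h.2 w₁ h₁ w₂ h₂ hne).1
  right := fun w₁ h₁ w₂ h₂ hne => (h.2 w₁ h₁ w₂ h₂ hne).2

theorem exists_maximal (A : StarSubalgebra ℂ (H →L[ℂ] H)) (p q : H →L[ℂ] H) :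
    ∃ 𝒱, Maximal (· ∈ {𝒱 | AdmFam A p q 𝒱}) 𝒱 := by
  apply zorn_subset
  intro c hc hchain
  refine ⟨⋃₀ c, ⟨?_, ?_⟩, fun s hs => Set.subset_sUnion_of_mem hs⟩
  · rintro w ⟨s, hs, hw⟩
    exact (hc hs).1 w hw
  · rintro w₁ ⟨s₁, hs₁, hw₁⟩ w₂ ⟨s₂, hs₂, hw₂⟩ hne
    rcases hchain.total hs₁ hs₂ with h | h
    · exact (hc hs₂).2 w₁ (h hw₁) w₂ hw₂ hne
    · exact (hc hs₁).2 w₁ hw₁ w₂ (h hw₂) hne

/-- Comparison: there is a partial isometry between `p` and `q` which exhausts `p` or `q`. -/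
theorem comparison_aux
    (hA : Set.centralizer (Set.centralizer (A : Set (H →L[ℂ] H))) = (A : Set (H →L[ℂ] H)))
    (hfac : ∀ z ∈ A, (∀ a ∈ A, z * a = a * z) → ∃ c : ℂ, z = c • (1 : H →L[ℂ] H))
    {p q : H →L[ℂ] H} (hp : p ∈ A) (hps : star p = p) (hpp : p * p = p) (hq : q ∈ A)
    (hqs : star q = q) (hqq : q * q = q) :
    ∃ v ∈ A, v * p = v ∧ q * v = v ∧ (star v * v = p ∨ v * star v = q) := by
  obtain ⟨𝒱, h𝒱, hmax⟩ := exists_maximal A p q
  have hfam : IsOrthFam 𝒱 := h𝒱.isOrthFam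
  have h𝒱A : ∀ w ∈ 𝒱, w ∈ A := fun w hw => (h𝒱.1 w hw).1
  set p₀ := pr (initSp 𝒱) with hp₀
  set q₀ := pr (finSp 𝒱) with hq₀
  have hp₀A : p₀ ∈ A := initSp_mem hA h𝒱A
  have hq₀A : q₀ ∈ A := finSp_mem hA h𝒱A
  have hp₀s : star p₀ = p₀ := star_pr _
  have hq₀s : star q₀ = q₀ := star_pr _
  have hp₀p₀ : p₀ * p₀ = p₀ := pr_mul_pr _
  have hq₀q₀ : q₀ * q₀ = q₀ := pr_mul_pr _
  have hpw : ∀ w ∈ 𝒱, p * star w = star w := fun w hw => by
    have := congrArg star (h𝒱.1 w hw).2.2.2.1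
    rwa [star_mul, hps] at this
  have hwq : ∀ w ∈ 𝒱, star w * q = star w := fun w hw => by
    have := congrArg star (h𝒱.1 w hw).2.2.2.2
    rwa [star_mul, hqs] at this
  have hpp₀ : p * p₀ = p₀ := mul_initSp_eq hpw
  have hqq₀ : q * q₀ = q₀ := mul_finSp_eq fun w hw => (h𝒱.1 w hw).2.2.2.2
  have hp₀p : p₀ * p = p₀ := by
    have := congrArg star hpp₀
    rwa [star_mul, hps, hp₀s] at this
  have hq₀q : q₀ * q = q₀ := by
    have := congrArg star hqq₀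
    rwa [star_mul, hqs, hq₀s] at this
  -- maximality
  have hdich : p - p₀ = 0 ∨ q - q₀ = 0 := by
    by_contra hcon
    push Not at hcon
    obtain ⟨a, ha, hx⟩ := exists_mul_ne_zero hA hfac (sub_mem hp hp₀A) hcon.1 hcon.2
    obtain ⟨w, hwA, hw0, hwpi, hwl, hwr⟩ := exists_partialIsometry hA
      (mul_mem (mul_mem (sub_mem hq hq₀A) ha) (sub_mem hp hp₀A)) hx
    have hqq' : (q - q₀) * (q - q₀) = q - q₀ := by
      rw [mul_sub, sub_mul, sub_mul, hqq, hq₀q, hqq₀, hq₀q₀]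
      abel
    have hpp' : (p - p₀) * (p - p₀) = p - p₀ := by
      rw [mul_sub, sub_mul, sub_mul, hpp, hp₀p, hpp₀, hp₀p₀]
      abel
    have h1 : (q - q₀) * w = w := by
      apply hwl
      rw [← mul_assoc, ← mul_assoc, hqq']
    have h2 : w * (p - p₀) = w := by
      apply hwr
      · rw [star_sub, hps, hp₀s]
      · rw [mul_assoc, hpp']
    have h3 : w * p = w := by
      conv_lhs => rw [← h2]
      rw [mul_assoc, sub_mul, hpp, hp₀p, h2]
    have h4 : q * w = w := by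
      conv_lhs => rw [← h1]
      rw [← mul_assoc, mul_sub, hqq, hqq₀, h1]
    have h5 : ∀ w₁ ∈ 𝒱, w * star w₁ = 0 := by
      intro w₁ hw₁
      rw [← h2, mul_assoc, sub_mul, hpw w₁ hw₁, initSp_mul_star hw₁, sub_self, mul_zero]
    have h6 : ∀ w₁ ∈ 𝒱, star w₁ * w = 0 := by
      intro w₁ hw₁
      rw [← h1, ← mul_assoc, mul_sub, hwq w₁ hw₁, star_mul_finSp hw₁, sub_self, zero_mul]
    have h7 : insert w 𝒱 ∈ {𝒱 | AdmFam A p q 𝒱} := by
      refine ⟨?_, ?_⟩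
      · rintro w₁ (rfl | hw₁)
        · exact ⟨hwA, hw0, hwpi, h3, h4⟩
        · exact h𝒱.1 w₁ hw₁
      · rintro w₁ (rfl | hw₁) w₂ (rfl | hw₂) hne
        · exact absurd rfl hne
        · refine ⟨?_, h5 w₂ hw₂⟩
          have := congrArg star (h6 w₂ hw₂)
          rwa [star_mul, star_star, star_zero] at this
        · refine ⟨h6 w₁ hw₁, ?_⟩
          have := congrArg star (h5 w₁ hw₁)
          rwa [star_mul, star_star, star_zero] at this
        · exact h𝒱.2 w₁ hw₁ w₂ hw₂ hne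
    have h8 : w ∈ 𝒱 := hmax h7 (Set.subset_insert w 𝒱) (Set.mem_insert w 𝒱)
    have h9 := h5 w h8
    apply hw0
    rw [← hwpi, h9, zero_mul]
  set v := strongSum hfam with hv
  have hvv : star v * v = p₀ := star_strongSum_mul_strongSum hfam
  have hvv' : v * star v = q₀ := strongSum_mul_star_strongSum hfam
  have hvp₀ : v * p₀ = v := strongSum_mul_initSp hfam
  have hq₀v : q₀ * v = v := finSp_mul_strongSum hfam
  refine ⟨v, strongSum_mem hfam hA h𝒱A, ?_, ?_, ?_⟩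
  · conv_lhs => rw [← hvp₀]
    rw [mul_assoc, hp₀p, hvp₀]
  · conv_lhs => rw [← hq₀v]
    rw [← mul_assoc, hqq₀, hq₀v]
  · rcases hdich with h | h
    · left
      rw [hvv, sub_eq_zero.1 h]
    · right
      rw [hvv', sub_eq_zero.1 h]

/-- A projection in a factor is equivalent to a subprojection of its complement, or conversely. -/
theorem comparison
    (hA : Set.centralizer (Set.centralizer (A : Set (H →L[ℂ] H))) = (A : Set (H →L[ℂ] H)))
    (hfac : ∀ z ∈ A, (∀ a ∈ A, z * a = a * z) → ∃ c : ℂ, z = c • (1 : H →L[ℂ] H))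
    {p : H →L[ℂ] H} (hp : p ∈ A) (hps : star p = p) (hpp : p * p = p) :
    (∃ v ∈ A, star v * v = p ∧ (1 - p) * v = v) ∨
      (∃ v ∈ A, star v * v = 1 - p ∧ p * v = v) := by
  have hqq : (1 - p) * (1 - p) = 1 - p := by
    rw [mul_sub, sub_mul, sub_mul, hpp, one_mul, mul_one, one_mul]
    abel
  obtain ⟨v, hvA, h1, h2, h3⟩ := comparison_aux hA hfac hp hps hpp
    (sub_mem (one_mem A) hp) (by rw [star_sub, star_one, hps]) hqq
  rcases h3 with h3 | h3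
  · exact Or.inl ⟨v, hvA, h3, h2⟩
  · refine Or.inr ⟨star v, star_mem hvA, by rw [star_star]; exact h3, ?_⟩
    have := congrArg star h1
    rwa [star_mul, hps] at this

end Pool.Agent.Lib.MP_eee3e4_an
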