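import Pool.Agent.Lib.MP_eee3e4_an.Compare

set_option autoImplicit false

/-!
# Dixmier averaging in a factor
-/

namespace Pool.Agent.Lib.MP_eee3e4_an

open InnerProductSpace Filter Topology

variable {H : Type*} [NormedAddCommGroup H] [InnerProductSpace ℂ H] [CompleteSpace H]
variable {A : StarSubalgebra ℂ (H →L[ℂ] H)}

/-- A partial isometry whose initial and final spaces are orthogonal. -/
structure Good (A : StarSubalgebra ℂ (H →L[ℂ] H)) (v : H →L[ℂ] H) : Prop where
  mem : v ∈ A
  pi : v * star v * v = v
  sq : v * v = 0

/-- The unitary exchanging the initial and the final space. -/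
noncomputable def swp (v : H →L[ℂ] H) : H →L[ℂ] H :=
  1 - star v * v - v * star v + star v - v

theorem star_swp (v : H →L[ℂ] H) :
    star (swp v) = 1 - star v * v - v * star v + v - star v := by
  unfold swp
  simp only [star_sub, star_add, star_mul, star_star, star_one]

theorem Good.star_pi {v : H →L[ℂ] H} (h : Good A v) : star v * v * star v = star v := by
  have := congrArg star h.pi
  rwa [star_mul, star_mul, star_star, ← mul_assoc] at this

theorem Good.star_sq {v : H →L[ℂ] H} (h : Good A v) : star v * star v = 0 := by
  have := congrArg star h.sq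
  rwa [star_mul, star_zero] at this

/-- The factorisation of the exchanging unitary. -/
theorem Good.swp_eq {v : H →L[ℂ] H} (h : Good A v) :
    swp v = (1 + star v) * (1 - v) * (1 + star v) := by
  have h1 := h.star_pi
  have h2 := h.star_sq
  unfold swp
  have : (1 + star v) * (1 - v) * (1 + star v) =
      1 - v + star v + star v - star v * v - v * star v + star v * star v - star v * v * star v := by
    noncomm_ring
  rw [this, h1, h2]
  abel

theorem Good.star_swp_eq {v : H →L[ℂ] H} (h : Good A v) :
    star (swp v) = (1 - star v) * (1 + v) * (1 - star v) := by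
  have h1 := h.star_pi
  have h2 := h.star_sq
  rw [star_swp]
  have : (1 - star v) * (1 + v) * (1 - star v) =
      1 + v - star v - star v - star v * v - v * star v + star v * star v + star v * v * star v := by
    noncomm_ring
  rw [this, h1, h2]
  abel

theorem Good.swp_mul_star_swp {v : H →L[ℂ] H} (h : Good A v) : swp v * star (swp v) = 1 := by
  rw [h.star_swp_eq, h.swp_eq]
  have h1 : (1 + star v) * (1 - star v) = 1 := by
    have : (1 + star v) * (1 - star v) = 1 - star v * star v := by noncomm_ring
    rw [this, h.star_sq, sub_zero]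
  have h2 : (1 - v) * (1 + v) = 1 := by
    have : (1 - v) * (1 + v) = 1 - v * v := by noncomm_ring
    rw [this, h.sq, sub_zero]
  calc (1 + star v) * (1 - v) * (1 + star v) * ((1 - star v) * (1 + v) * (1 - star v)) =
      (1 + star v) * (1 - v) * ((1 + star v) * (1 - star v)) * (1 + v) * (1 - star v) := by
        simp only [mul_assoc]
    _ = (1 + star v) * ((1 - v) * (1 + v)) * (1 - star v) := by
        rw [h1, mul_one]
        simp only [mul_assoc]
    _ = 1 := by rw [h2, mul_one, h1]

theorem Good.swp_conj_init {v : H →L[ℂ] H} (h : Good A v) :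
    swp v * (star v * v) * star (swp v) = v * star v := by
  have h1 : swp v * (star v * v) = -v := by
    unfold swp
    have : (1 - star v * v - v * star v + star v - v) * (star v * v) =
        star v * v - (star v * v * star v) * v - v * (star v * star v) * v +
          (star v * star v) * v - v * star v * v := by noncomm_ring
    rw [this, h.star_pi, h.star_sq, h.pi]
    simp
  rw [h1, star_swp]
  have : -v * (1 - star v * v - v * star v + v - star v) =
      -v + v * star v * v + (v * v) * star v - v * v + v * star v := by noncomm_ring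
  rw [this, h.pi, h.sq]
  simp

/-- The average over the exchanging unitary. -/
noncomputable def avg (v x : H →L[ℂ] H) : H →L[ℂ] H :=
  (1 / 2 : ℝ) • (x + swp v * x * star (swp v))

theorem avg_add (v x y : H →L[ℂ] H) : avg v (x + y) = avg v x + avg v y := by
  unfold avg
  rw [mul_add, add_mul, ← smul_add]
  congr 1
  abel

theorem avg_smul (v x : H →L[ℂ] H) (c : ℂ) : avg v (c • x) = c • avg v x := by
  unfold avg
  rw [mul_smul_comm, smul_mul_assoc, ← smul_add, smul_comm]

theorem avg_le {v : H →L[ℂ] H} {x y : H →L[ℂ] H} (h : x ≤ y) : avg v x ≤ avg v y := by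
  unfold avg
  exact smul_le_smul_of_nonneg_left (add_le_add h (star_right_conjugate_le_conjugate h _))
    (by norm_num)

theorem avg_algebraMap {v : H →L[ℂ] H} (h : Good A v) (t : ℝ) :
    avg v (algebraMap ℝ _ t) = algebraMap ℝ _ t := by
  unfold avg
  rw [← Algebra.commutes, mul_assoc, h.swp_mul_star_swp, mul_one, ← two_smul ℝ, smul_smul]
  norm_num

theorem avg_mem {v x : H →L[ℂ] H} (h : Good A v) (hx : x ∈ A) : avg v x ∈ A := by
  have hg : swp v ∈ A := by
    unfold swp
    have h1 := h.mem
    have h2 : star v ∈ A := star_mem h1
    exact sub_mem (add_mem (sub_mem (sub_mem (one_mem A) (mul_mem h2 h1)) (mul_mem h1 h2)) h2) h1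
  have h1 : x + swp v * x * star (swp v) ∈ A :=
    add_mem hx (mul_mem (mul_mem hg hx) (star_mem hg))
  have h2 : avg v x = ((1 / 2 : ℝ) : ℂ) • (x + swp v * x * star (swp v)) := by
    unfold avg
    rw [Complex.coe_smul]
  rw [h2]
  exact A.smul_mem h1 _

theorem avg_star (v x : H →L[ℂ] H) : star (avg v x) = avg v (star x) := by
  unfold avg
  rw [star_smul, star_trivial, star_add, star_mul, star_mul, star_star, mul_assoc]

/-- If `x ≤ m + δ e`, where `e` is the initial projection, then the average is at most
`m + δ / 2`. -/
theorem avg_upper {v x : H →L[ℂ] H} (h : Good A v) {m δ : ℝ} (hδ : 0 ≤ δ)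
    (hx : x ≤ algebraMap ℝ _ m + δ • (star v * v)) :
    avg v x ≤ algebraMap ℝ _ (m + δ / 2) := by
  refine (avg_le hx).trans ?_
  have h1 : avg v (algebraMap ℝ _ m + δ • (star v * v)) =
      algebraMap ℝ _ m + (δ / 2) • (star v * v + v * star v) := by
    rw [avg_add, avg_algebraMap h]
    congr 1
    unfold avg
    rw [mul_smul_comm, smul_mul_assoc, h.swp_conj_init, ← smul_add, smul_smul]
    congr 1
    ring
  rw [h1, map_add]
  gcongr
  rw [Algebra.algebraMap_eq_smul_one]
  refine smul_le_smul_of_nonneg_left ?_ (by positivity)
  -- the sum of the two orthogonal projections is at most one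
  have h2 : 0 ≤ star (1 - (star v * v + v * star v)) * (1 - (star v * v + v * star v)) :=
    star_mul_self_nonneg _
  have h3 : star (1 - (star v * v + v * star v)) * (1 - (star v * v + v * star v)) =
      1 - (star v * v + v * star v) := by
    rw [star_sub, star_one, star_add, star_mul, star_mul, star_star]
    have : (1 - (star v * v + v * star v)) * (1 - (star v * v + v * star v)) =
        1 - 2 • (star v * v + v * star v) + star v * v * star v * v + v * star v * v * star v +
        star v * (v * v) * star v + v * (star v * star v) * v := by noncomm_ring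
    rw [this, h.star_pi, h.pi, h.sq, h.star_sq]
    simp only [mul_zero, zero_mul, add_zero, two_smul]
    abel
  rw [h3, sub_nonneg] at h2
  exact h2

/-- If `m - δ e ≤ x`, where `e` is the initial projection, then the average is at least
`m - δ / 2`. -/
theorem avg_lower {v x : H →L[ℂ] H} (h : Good A v) {m δ : ℝ} (hδ : 0 ≤ δ)
    (hx : algebraMap ℝ _ m - δ • (star v * v) ≤ x) :
    algebraMap ℝ _ (m - δ / 2) ≤ avg v x := by
  have h1 := avg_upper h (x := -x) (m := -m) hδ (by
    rw [map_neg]
    have := neg_le_neg hx
    refine this.trans (le_of_eq ?_)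
    abel)
  have h2 : avg v (-x) = - avg v x := by
    have := avg_smul v x (-1)
    rwa [neg_one_smul, neg_one_smul] at this
  rw [h2] at h1
  have h3 := neg_le_neg h1
  rw [neg_neg] at h3
  refine le_trans (le_of_eq ?_) h3
  rw [← map_neg]
  congr 1
  ring

end Pool.Agent.Lib.MP_eee3e4_an
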