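import Pool.Agent.Lib.MP_eee3e4_an.Proj

set_option autoImplicit false

/-!
# Partial isometries in a factor
-/

namespace Pool.Agent.Lib.MP_eee3e4_an

open InnerProductSpace

variable {H : Type*} [NormedAddCommGroup H] [InnerProductSpace ℂ H] [CompleteSpace H]
variable {A : StarSubalgebra ℂ (H →L[ℂ] H)}

/-- The factor property: non-zero elements are connected. -/
theorem exists_mul_ne_zero
    (hA : Set.centralizer (Set.centralizer (A : Set (H →L[ℂ] H))) = (A : Set (H →L[ℂ] H)))
    (hfac : ∀ z ∈ A, (∀ a ∈ A, z * a = a * z) → ∃ c : ℂ, z = c • (1 : H →L[ℂ] H))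
    {p q : H →L[ℂ] H} (hp : p ∈ A) (hp0 : p ≠ 0) (hq0 : q ≠ 0) :
    ∃ a ∈ A, q * a * p ≠ 0 := by
  by_contra hcon
  push Not at hcon
  let V : Submodule ℂ H := Submodule.span ℂ {η | ∃ a ∈ A, ∃ ξ, a (p ξ) = η}
  have hVmem : ∀ a ∈ A, ∀ ξ, a (p ξ) ∈ V := fun a ha ξ => Submodule.subset_span ⟨a, ha, ξ, rfl⟩
  have hVA : ∀ b ∈ A, ∀ ξ ∈ V, b ξ ∈ V := by
    intro b hb ξ hξ
    induction hξ using Submodule.span_induction with
    | mem η hη =>
      obtain ⟨a, ha, ξ, rfl⟩ := hη
      exact hVmem (b * a) (mul_mem hb ha) ξ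
    | zero => rw [map_zero]; exact zero_mem _
    | add x y _ _ hx hy => rw [map_add]; exact add_mem hx hy
    | smul c x _ hx => rw [map_smul]; exact Submodule.smul_mem _ _ hx
  have hVC : ∀ y ∈ Set.centralizer (A : Set (H →L[ℂ] H)), ∀ ξ ∈ V, y ξ ∈ V := by
    intro y hy ξ hξ
    induction hξ using Submodule.span_induction with
    | mem η hη =>
      obtain ⟨a, ha, ξ, rfl⟩ := hη
      have h1 : y * (a * p) = (a * p) * y := comm_of_mem_centralizer hy (mul_mem ha hp)
      have h2 : y (a (p ξ)) = a (p (y ξ)) := congrArg (fun w : H →L[ℂ] H => w ξ) h1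
      rw [h2]
      exact hVmem a ha _
    | zero => rw [map_zero]; exact zero_mem _
    | add x y _ _ hx hy => rw [map_add]; exact add_mem hx hy
    | smul c x _ hx => rw [map_smul]; exact Submodule.smul_mem _ _ hx
  have heA : pr V ∈ A := pr_mem hA hVC
  obtain ⟨c, hc⟩ := hfac (pr V) heA fun a ha =>
    (pr_comm (hVA a ha) (hVA _ (star_mem ha))).symm
  -- `q` vanishes on `V`
  have hqe : q * pr V = 0 := by
    apply mul_pr_eq_zero
    intro ξ hξ
    induction hξ using Submodule.span_induction with
    | mem η hη =>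
      obtain ⟨a, ha, ξ, rfl⟩ := hη
      exact congrArg (fun w : H →L[ℂ] H => w ξ) (hcon a ha)
    | zero => rw [map_zero]
    | add x y _ _ hx hy => rw [map_add, hx, hy, add_zero]
    | smul c x _ hx => rw [map_smul, hx, smul_zero]
  rw [hc, mul_smul_comm, mul_one] at hqe
  have hc0 : c = 0 := by
    rcases smul_eq_zero.1 hqe with h | h
    · exact h
    · exact absurd h hq0
  apply hp0
  ext ξ
  have h1 : pr V (p ξ) = p ξ := pr_apply_of_mem (by simpa using hVmem 1 (one_mem A) ξ)
  rw [hc, hc0, zero_smul] at h1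
  exact h1.symm

/-- Every non-zero element gives a non-zero partial isometry. -/
theorem exists_partialIsometry
    (hA : Set.centralizer (Set.centralizer (A : Set (H →L[ℂ] H))) = (A : Set (H →L[ℂ] H)))
    {x : H →L[ℂ] H} (hx : x ∈ A) (hx0 : x ≠ 0) :
    ∃ w ∈ A, w ≠ 0 ∧ w * star w * w = w ∧ (∀ q, q * x = x → q * w = w) ∧
      (∀ p, star p = p → x * p = x → w * p = w) := by
  set y : H →L[ℂ] H := star x * x with hy
  have hyA : y ∈ A := mul_mem (star_mem hx) hx
  have hysa : IsSelfAdjoint y := IsSelfAdjoint.star_mul_self x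
  have hy0 : 0 ≤ y := star_mul_self_nonneg x
  have hyne : 0 < ‖y‖ := by
    rw [norm_pos_iff]
    intro h
    apply hx0
    rw [hy] at h
    exact (CStarRing.star_mul_self_eq_zero_iff x).1 h
  set δ : ℝ := ‖y‖ / 2 with hδ
  have hδ0 : 0 < δ := by positivity
  let f : ℝ → ℝ := fun t => max (t - δ) 0
  let g : ℝ → ℝ := fun t => (Real.sqrt (max t δ))⁻¹
  have hfc : Continuous f := by simp only [f]; fun_prop
  have hgc : Continuous g := by
    refine Continuous.inv₀ (by fun_prop) fun t => ?_
    have : 0 < max t δ := lt_max_of_lt_right hδ0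
    positivity
  have hfg : ∀ t, g t * t * g t * f t = f t := by
    intro t
    simp only [f, g]
    rcases le_total t δ with h | h
    · rw [max_eq_right (by linarith : t - δ ≤ 0), mul_zero]
    · rw [max_eq_left h]
      have ht : 0 < t := lt_of_lt_of_le hδ0 h
      have hs : 0 < Real.sqrt t := Real.sqrt_pos.2 ht
      have h1 : (Real.sqrt t)⁻¹ * t * (Real.sqrt t)⁻¹ = 1 := by
        field_simp
        rw [Real.sq_sqrt ht.le]
      rw [h1, one_mul]
  set F : H →L[ℂ] H := cfc f y with hF
  set G : H →L[ℂ] H := cfc g y with hG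
  have hFA : F ∈ A := cfc_mem hA hyA f
  have hGA : G ∈ A := cfc_mem hA hyA g
  have hid : cfc (fun t : ℝ => t) y = y := cfc_id' ℝ y
  have hGyGF : G * y * G * F = F := by
    have h1 : cfc (fun t => g t * t * g t * f t) y = G * y * G * F := by
      rw [cfc_mul (fun t => g t * t * g t) f y (by fun_prop) (by fun_prop),
        cfc_mul (fun t => g t * t) g y (by fun_prop) (by fun_prop),
        cfc_mul g (fun t => t) y (by fun_prop) (by fun_prop), hid]
    rw [← h1]
    exact cfc_congr fun t _ => hfg t
  have hFGGy : F * G * G * y = F := by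
    have h1 : cfc (fun t => f t * g t * g t * t) y = F * G * G * y := by
      rw [cfc_mul (fun t => f t * g t * g t) (fun t => t) y (by fun_prop) (by fun_prop),
        cfc_mul (fun t => f t * g t) g y (by fun_prop) (by fun_prop),
        cfc_mul f g y (by fun_prop) (by fun_prop), hid]
    rw [← h1]
    refine cfc_congr fun t _ => ?_
    change f t * g t * g t * t = f t
    calc f t * g t * g t * t = g t * t * g t * f t := by ring
      _ = f t := hfg t
  have hFsa : star F = F := (IsSelfAdjoint.cfc (f := f) (a := y)).star_eq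
  have hGsa : star G = G := (IsSelfAdjoint.cfc (f := g) (a := y)).star_eq
  have hF0 : F ≠ 0 := by
    intro h0
    have h1 : cfc (fun t : ℝ => t) y ≤ cfc (fun t => f t + δ) y := by
      apply cfc_mono (fun t _ => ?_) (by fun_prop) (by fun_prop)
      have := le_max_left (t - δ) 0
      simp only [f]
      linarith
    rw [hid, cfc_add_const δ f y (by fun_prop), ← hF, h0, zero_add] at h1
    have h2 := (CStarAlgebra.norm_le_iff_le_algebraMap y hδ0.le hy0).2 h1
    rw [hδ] at h2
    linarith
  set r : H →L[ℂ] H := rp F with hr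
  have hrA : r ∈ A := rp_mem hA hFA
  have hr0 : r ≠ 0 := fun h => hF0 (rp_eq_zero_iff.1 h)
  have hGyGr : G * y * G * r = r := mul_rp_eq hGyGF
  set w : H →L[ℂ] H := x * G * r with hw
  have hww : star w * w = r := by
    rw [hw, star_mul, star_mul, hGsa, hr, star_rp]
    calc rp F * (G * star x) * (x * G * rp F) = rp F * (G * (star x * x) * G * rp F) := by
          simp only [mul_assoc]
      _ = rp F * rp F := by rw [← hy, ← hr, hGyGr]
      _ = rp F := rp_mul_rp F
  have hwr : w * r = w := by
    rw [hw, mul_assoc, hr, rp_mul_rp]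
  refine ⟨w, mul_mem (mul_mem hx hGA) hrA, ?_, ?_, ?_, ?_⟩
  · intro h
    apply hr0
    rw [← hww, h, mul_zero]
  · rw [mul_assoc, hww, hwr]
  · intro q hq
    rw [hw, ← mul_assoc, ← mul_assoc, hq]
  · intro p hp hxp
    have h1 : y * p = y := by rw [hy, mul_assoc, hxp]
    have h2 : F * p = F := by
      rw [← hFGGy, mul_assoc, h1]
    have h3 : p * F = F := by
      have := congrArg star h2
      rwa [star_mul, hp, hFsa] at this
    have h4 : p * r = r := mul_rp_eq h3
    have h5 : r * p = r := by
      have := congrArg star h4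
      rwa [star_mul, hp, hr, star_rp] at this
    rw [hw, mul_assoc, h5]

end Pool.Agent.Lib.MP_eee3e4_an
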