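import Pool.Agent.Lib.MP_eee3e4_an.Zemanek

set_option autoImplicit false

/-!
# Spectrally bounded maps and similarities
-/

namespace Pool.Agent.Lib.MP_eee3e4_an

open Filter Topology ENNReal

set_option linter.unusedSectionVars false

section General

variable {B : Type*} [NormedRing B] [NormedAlgebra ℂ B] [CompleteSpace B]

theorem spectralRadius_le_norm_mul (a : B) :
    spectralRadius ℂ a ≤ ENNReal.ofReal (‖a‖ * ‖(1 : B)‖) := by
  unfold spectralRadius
  refine iSup₂_le fun k hk => ?_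
  have h := spectrum.norm_le_norm_mul_of_mem hk
  have h1 : (‖k‖₊ : ℝ≥0∞) = ENNReal.ofReal ‖k‖ := (ofReal_norm k).symm
  rw [h1]
  exact ENNReal.ofReal_le_ofReal h

theorem spectralRadius_one_add_le (b : B) :
    spectralRadius ℂ (1 + b) ≤ 1 + spectralRadius ℂ b := by
  unfold spectralRadius
  refine iSup₂_le fun k hk => ?_
  have h1 : k - 1 ∈ spectrum ℂ b := by
    rw [spectrum.mem_iff] at hk ⊢
    intro hu
    apply hk
    have : algebraMap ℂ B k - (1 + b) = algebraMap ℂ B (k - 1) - b := by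
      rw [map_sub, map_one]
      abel
    rwa [this]
  have h2 : (‖k‖₊ : ℝ≥0∞) ≤ 1 + ‖k - 1‖₊ := by
    have : ‖k‖₊ ≤ 1 + ‖k - 1‖₊ := by
      calc ‖k‖₊ = ‖1 + (k - 1)‖₊ := by rw [add_sub_cancel]
        _ ≤ ‖(1 : ℂ)‖₊ + ‖k - 1‖₊ := nnnorm_add_le _ _
        _ = 1 + ‖k - 1‖₊ := by rw [nnnorm_one]
    exact_mod_cast this
  refine h2.trans ?_
  gcongr
  exact le_iSup₂ (f := fun k (_ : k ∈ spectrum ℂ b) => (‖k‖₊ : ℝ≥0∞)) (k - 1) h1

end General

section Map

variable {B : Type*} [NormedRing B] [NormedAlgebra ℂ B] [CompleteSpace B]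
variable {E : Type*} [NormedRing E] [NormedAlgebra ℂ E] [CompleteSpace E]
variable {A : Type*} [Ring A] [Algebra ℂ A] (ι : A →ₐ[ℂ] E) (T : A →ₗ[ℂ] B)

/-- `1 + z a` -/
def gp (a : A) (z : ℂ) : A := 1 + z • a

/-- `1 - z a` -/
def gm (a : A) (z : ℂ) : A := 1 - z • a

theorem gp_mul_gm {a : A} (ha : a * a = 0) (z : ℂ) : gp a z * gm a z = 1 := by
  unfold gp gm
  rw [add_mul, one_mul, smul_mul_assoc, mul_sub, mul_one, mul_smul_comm, ha]
  simp

theorem gm_mul_gp {a : A} (ha : a * a = 0) (z : ℂ) : gm a z * gp a z = 1 := by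
  unfold gp gm
  rw [sub_mul, one_mul, smul_mul_assoc, mul_add, mul_one, mul_smul_comm, ha]
  simp

theorem conj_expand (a x : A) (z : ℂ) :
    gp a z * x * gm a z = x + z • (a * x - x * a) - z ^ 2 • (a * x * a) := by
  unfold gp gm
  rw [add_mul, one_mul, mul_sub, mul_one, add_mul, smul_mul_assoc, smul_mul_assoc,
    mul_smul_comm, mul_smul_comm, smul_sub, smul_smul, ← pow_two]
  abel

theorem spectralRadius_conj_gp {a : A} (ha : a * a = 0) (z : ℂ) (x : A) :
    spectralRadius ℂ (ι (gp a z * x * gm a z)) = spectralRadius ℂ (ι x) := by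
  let g : Eˣ := ⟨ι (gp a z), ι (gm a z), by rw [← map_mul, gp_mul_gm ha, map_one],
    by rw [← map_mul, gm_mul_gp ha, map_one]⟩
  have h := spectralRadius_conj g (ι x)
  rw [map_mul, map_mul]
  exact h

theorem spectralRadius_conj_gm {a : A} (ha : a * a = 0) (z : ℂ) (x : A) :
    spectralRadius ℂ (ι (gm a z * x * gp a z)) = spectralRadius ℂ (ι x) := by
  let g : Eˣ := ⟨ι (gm a z), ι (gp a z), by rw [← map_mul, gm_mul_gp ha, map_one],
    by rw [← map_mul, gp_mul_gm ha, map_one]⟩
  have h := spectralRadius_conj g (ι x)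
  rw [map_mul, map_mul]
  exact h

variable {ι T}
variable {M : NNReal}

theorem exists_ofReal_bound (M : NNReal) (x : E) :
    ∃ C : ℝ, 0 ≤ C ∧ (M : ℝ≥0∞) * spectralRadius ℂ x ≤ ENNReal.ofReal C := by
  refine ⟨M * (‖x‖ * ‖(1 : E)‖), by positivity, ?_⟩
  rw [ENNReal.ofReal_mul M.coe_nonneg, ENNReal.ofReal_coe_nnreal]
  gcongr
  exact spectralRadius_le_norm_mul x

/-- A spectrally bounded map does not increase the spectral radius along similarities. -/
theorem spectralRadius_map_conj_le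
    (hT : ∀ x, spectralRadius ℂ (T x) ≤ (M : ℝ≥0∞) * spectralRadius ℂ (ι x))
    {a : A} (ha : a * a = 0) (z : ℂ) (x : A) :
    spectralRadius ℂ (T (gp a z * x * gm a z)) ≤ spectralRadius ℂ (T x) := by
  obtain ⟨C, -, hC⟩ := exists_ofReal_bound M (ι x)
  let F : ℂ → B := fun z => T x + z • T (a * x - x * a) - z ^ 2 • T (a * x * a)
  have hF : Differentiable ℂ F := by
    simp only [F]
    fun_prop
  have hFT : ∀ z, F z = T (gp a z * x * gm a z) := by
    intro z
    rw [conj_expand, map_sub, map_add, map_smul, map_smul]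
  have h := spectralRadius_le_of_bounded hF (C := C) (fun z => by
    rw [hFT]
    refine (hT _).trans ?_
    rw [spectralRadius_conj_gp ι ha]
    exact hC) z
  rw [hFT] at h
  refine h.trans (le_of_eq ?_)
  simp [F]

/-- If `T u = 1` then `T` maps all the elements `g u g⁻¹` with `g = 1 + z a`, `a² = 0`, to `1`. -/
theorem map_conj_eq_one (hB : (⊥ : Ideal B).jacobson = ⊥) (hsurj : Function.Surjective T)
    (hT : ∀ x, spectralRadius ℂ (T x) ≤ (M : ℝ≥0∞) * spectralRadius ℂ (ι x))
    {a : A} (ha : a * a = 0) (z : ℂ) {u : A} (hu : T u = 1) :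
    T (gp a z * u * gm a z) = 1 := by
  have key : T (gp a z * u * gm a z) - 1 ∈ (⊥ : Ideal B).jacobson := by
    apply mem_jacobson_of_forall
    intro y hy
    obtain ⟨w, rfl⟩ := hsurj y
    let Φ : ℂ → B := fun ζ => T w + ζ • T (a * u - u * a) - ζ ^ 2 • T (a * u * a)
    have hΦ : Differentiable ℂ Φ := by
      simp only [Φ]
      fun_prop
    have hΦT : ∀ ζ, Φ ζ = T (gp a ζ * u * gm a ζ) - 1 + T w := by
      intro ζ
      rw [conj_expand, map_sub, map_add, map_smul, map_smul, hu]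
      simp only [Φ]
      abel
    obtain ⟨C, hC0, hC⟩ := exists_ofReal_bound M (ι (w - u))
    have hbd : ∀ ζ, spectralRadius ℂ (Φ ζ) ≤ ENNReal.ofReal (1 + C) := by
      intro ζ
      have h1 : Φ ζ = T (gp a ζ * (u + gm a ζ * (w - u) * gp a ζ) * gm a ζ) := by
        have h2 : gp a ζ * (u + gm a ζ * (w - u) * gp a ζ) * gm a ζ =
            gp a ζ * u * gm a ζ + (w - u) := by
          rw [mul_add, add_mul]
          congr 1
          rw [← mul_assoc, ← mul_assoc, gp_mul_gm ha, one_mul, mul_assoc, gp_mul_gm ha, mul_one]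
        rw [h2, hΦT, map_add, map_sub, hu]
        abel
      rw [h1]
      refine (spectralRadius_map_conj_le hT ha ζ _).trans ?_
      rw [map_add, hu]
      refine (spectralRadius_one_add_le _).trans ?_
      rw [ENNReal.ofReal_add zero_le_one hC0, ENNReal.ofReal_one]
      gcongr
      refine (hT _).trans ?_
      rw [spectralRadius_conj_gm ι ha]
      exact hC
    have h := spectralRadius_le_of_bounded hΦ hbd z
    rw [hΦT] at h
    have h0 : Φ 0 = T w := by simp [Φ]
    rw [h0, hy] at h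
    exact le_antisymm h zero_le
  rw [hB, Ideal.mem_bot, sub_eq_zero] at key
  exact key

/-- If elements mapped to `1` approximate the scalar `c`, then `T c = 1`. -/
theorem smul_map_one_eq (hB : (⊥ : Ideal B).jacobson = ⊥) (hsurj : Function.Surjective T)
    (hT : ∀ x, spectralRadius ℂ (T x) ≤ (M : ℝ≥0∞) * spectralRadius ℂ (ι x)) (c : ℂ)
    (hc : ∀ ε > 0, ∃ x, T x = 1 ∧ ‖ι x - c • 1‖ ≤ ε) : c • T 1 = 1 := by
  have key : c • T 1 - 1 ∈ (⊥ : Ideal B).jacobson := by
    apply mem_jacobson_of_forall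
    intro y hy
    obtain ⟨w, rfl⟩ := hsurj y
    let Φ : ℂ → B := fun ζ => ζ • (c • T 1 - 1) + T w
    have hΦ : Differentiable ℂ Φ := by
      simp only [Φ]
      fun_prop
    have hbd : ∀ ζ, spectralRadius ℂ (Φ ζ) ≤
        ENNReal.ofReal (M * ((‖ι w‖ + 1) * ‖(1 : E)‖)) := by
      intro ζ
      obtain ⟨x, hx1, hx2⟩ := hc (1 / (‖ζ‖ + 1)) (by positivity)
      have h1 : Φ ζ = T (w + ζ • (c • 1 - x)) := by
        rw [map_add, map_smul, map_sub, map_smul, hx1]
        simp only [Φ]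
        abel
      rw [h1]
      refine (hT _).trans ?_
      rw [ENNReal.ofReal_mul M.coe_nonneg, ENNReal.ofReal_coe_nnreal]
      gcongr
      refine (spectralRadius_le_norm_mul _).trans (ENNReal.ofReal_le_ofReal ?_)
      refine mul_le_mul_of_nonneg_right ?_ (norm_nonneg _)
      rw [map_add, map_smul, map_sub, map_smul, map_one]
      refine (norm_add_le _ _).trans ?_
      gcongr
      rw [norm_smul, norm_sub_rev]
      calc ‖ζ‖ * ‖ι x - c • 1‖ ≤ ‖ζ‖ * (1 / (‖ζ‖ + 1)) :=
            mul_le_mul_of_nonneg_left hx2 (norm_nonneg _)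
        _ ≤ 1 := by
            rw [mul_one_div, div_le_one (by positivity)]
            linarith
    have h := spectralRadius_le_of_bounded hΦ hbd 1
    have h1 : Φ 1 = c • T 1 - 1 + T w := by simp [Φ]
    have h0 : Φ 0 = T w := by simp [Φ]
    rw [h1, h0, hy] at h
    exact le_antisymm h zero_le
  rw [hB, Ideal.mem_bot, sub_eq_zero] at key
  exact key

end Map

end Pool.Agent.Lib.MP_eee3e4_an
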