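import Pool.Agent.Lib.MP_eee3e4_an.Contract
import Pool.Agent.Lib.MP_eee3e4_an.Step

set_option autoImplicit false

/-!
# Spectrally bounded maps from factors
-/

namespace Pool.Agent.Lib.MP_eee3e4_an

open Filter Topology ENNReal

variable {H : Type*} [NormedAddCommGroup H] [InnerProductSpace ℂ H] [CompleteSpace H]
variable {B : Type*} [NormedRing B] [NormedAlgebra ℂ B] [CompleteSpace B]
variable {A : StarSubalgebra ℂ (H →L[ℂ] H)} {T : A →ₗ[ℂ] B} {M : NNReal}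

theorem map_avg (hB : (⊥ : Ideal B).jacobson = ⊥) (hsurj : Function.Surjective T)
    (hT : ∀ x : A, spectralRadius ℂ (T x) ≤ (M : ℝ≥0∞) * spectralRadius ℂ (x : H →L[ℂ] H))
    {Φ : (H →L[ℂ] H) → (H →L[ℂ] H)} (hΦ : IsAvg A Φ) {x : A} (hx : T x = 1) :
    ∃ x' : A, (x' : H →L[ℂ] H) = Φ x ∧ T x' = 1 := by
  induction hΦ with
  | refl => exact ⟨x, rfl, hx⟩
  | step v Φ hv _ ih =>
    obtain ⟨x', hx', hTx'⟩ := ih
    let a : A := ⟨star v, star_mem hv.mem⟩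
    let b : A := ⟨v, hv.mem⟩
    have ha : a * a = 0 := Subtype.ext hv.star_sq
    have hb : b * b = 0 := Subtype.ext hv.sq
    have hT' : ∀ x : A, spectralRadius ℂ (T x) ≤
        (M : ℝ≥0∞) * spectralRadius ℂ (A.toSubalgebra.val x) := hT
    have h1 := map_conj_eq_one (ι := A.toSubalgebra.val) hB hsurj hT' ha 1 hTx'
    have h2 := map_conj_eq_one (ι := A.toSubalgebra.val) hB hsurj hT' hb (-1) h1
    have h3 := map_conj_eq_one (ι := A.toSubalgebra.val) hB hsurj hT' ha 1 h2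
    set y : A := gp a 1 * (gp b (-1) * (gp a 1 * x' * gm a 1) * gm b (-1)) * gm a 1 with hy
    refine ⟨(1 / 2 : ℂ) • (x' + y), ?_, ?_⟩
    · have hyc : (y : H →L[ℂ] H) = swp v * Φ x * star (swp v) := by
        rw [hv.star_swp_eq, hv.swp_eq, ← hx']
        have e1 : ((gp a 1 : A) : H →L[ℂ] H) = 1 + star v := by
          change (1 : H →L[ℂ] H) + (1 : ℂ) • star v = 1 + star v
          rw [one_smul]
        have e2 : ((gm a 1 : A) : H →L[ℂ] H) = 1 - star v := by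
          change (1 : H →L[ℂ] H) - (1 : ℂ) • star v = 1 - star v
          rw [one_smul]
        have e3 : ((gp b (-1) : A) : H →L[ℂ] H) = 1 - v := by
          change (1 : H →L[ℂ] H) + (-1 : ℂ) • v = 1 - v
          rw [neg_one_smul, sub_eq_add_neg]
        have e4 : ((gm b (-1) : A) : H →L[ℂ] H) = 1 + v := by
          change (1 : H →L[ℂ] H) - (-1 : ℂ) • v = 1 + v
          rw [neg_one_smul, sub_neg_eq_add]
        have e5 : (y : H →L[ℂ] H) = (gp a 1 : A) * ((gp b (-1) : A) *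
            ((gp a 1 : A) * (x' : H →L[ℂ] H) * (gm a 1 : A)) * (gm b (-1) : A)) * (gm a 1 : A) :=
          rfl
        rw [e5, e1, e2, e3, e4]
        simp only [mul_assoc]
      change (1 / 2 : ℂ) • ((x' : H →L[ℂ] H) + (y : H →L[ℂ] H)) = avg v (Φ x)
      rw [hyc, hx']
      unfold avg
      have : (1 / 2 : ℂ) = ((1 / 2 : ℝ) : ℂ) := by push_cast; rfl
      rw [this, Complex.coe_smul]
    · rw [map_smul, map_add, hTx', h3, ← two_smul ℂ, smul_smul]
      norm_num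

/-- Main theorem, for arbitrary factors. -/
theorem main
    (hA : Set.centralizer (Set.centralizer (A : Set (H →L[ℂ] H))) = (A : Set (H →L[ℂ] H)))
    (hfac : ∀ z ∈ A, (∀ a ∈ A, z * a = a * z) → ∃ c : ℂ, z = c • (1 : H →L[ℂ] H))
    (hB : (⊥ : Ideal B).jacobson = ⊥) (hsurj : Function.Surjective T)
    (hT : ∀ x : A, spectralRadius ℂ (T x) ≤ (M : ℝ≥0∞) * spectralRadius ℂ (x : H →L[ℂ] H)) :
    ∃ c : ℂ, c ≠ 0 ∧ T 1 = c • (1 : B) := by
  rcases subsingleton_or_nontrivial B with hsub | hnon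
  · exact ⟨1, one_ne_zero, Subsingleton.elim _ _⟩
  obtain ⟨u, hu⟩ := hsurj 1
  obtain ⟨R, hR⟩ := dixmier hA hfac u.2
  have h1 : ∀ n : ℕ, ∃ x : A, ∃ c : ℂ, T x = 1 ∧ c ∈ Metric.closedBall (0 : ℂ) R ∧
      ‖(x : H →L[ℂ] H) - c • 1‖ ≤ 1 / ((n : ℝ) + 1) := by
    intro n
    obtain ⟨Φ, hΦ, c, hc, hle⟩ := hR (1 / ((n : ℝ) + 1)) (by positivity)
    obtain ⟨x, hx, hTx⟩ := map_avg hB hsurj hT hΦ hu
    exact ⟨x, c, hTx, by rwa [mem_closedBall_zero_iff], by rwa [hx]⟩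
  choose x c hx hc hle using h1
  obtain ⟨c₀, -, φ, hφ, hlim⟩ := (isCompact_closedBall (0 : ℂ) R).tendsto_subseq hc
  have h2 : c₀ • T 1 = 1 := by
    refine smul_map_one_eq (ι := A.toSubalgebra.val) hB hsurj hT c₀ fun ε hε => ?_
    have h3 : Tendsto (fun n : ℕ => 1 / ((n : ℝ) + 1)) atTop (𝓝 0) :=
      tendsto_one_div_add_atTop_nhds_zero_nat
    have h4 : Tendsto (fun n : ℕ => 1 / ((φ n : ℝ) + 1) +
        ‖(c (φ n) - c₀) • (1 : H →L[ℂ] H)‖) atTop (𝓝 0) := by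
      have h5 : Tendsto (fun n => (c (φ n) - c₀) • (1 : H →L[ℂ] H)) atTop (𝓝 0) := by
        have := (hlim.sub_const c₀).smul_const (1 : H →L[ℂ] H)
        rwa [sub_self, zero_smul] at this
      have := (h3.comp hφ.tendsto_atTop).add h5.norm
      rwa [norm_zero, add_zero] at this
    obtain ⟨n, hn⟩ := (h4.eventually_lt_const hε).exists
    refine ⟨x (φ n), hx _, ?_⟩
    refine le_trans ?_ hn.le
    have h6 : (x (φ n) : H →L[ℂ] H) - c₀ • (1 : H →L[ℂ] H) =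
        ((x (φ n) : H →L[ℂ] H) - c (φ n) • (1 : H →L[ℂ] H)) +
          (c (φ n) - c₀) • (1 : H →L[ℂ] H) := by
      rw [sub_smul]
      abel
    change ‖(x (φ n) : H →L[ℂ] H) - c₀ • (1 : H →L[ℂ] H)‖ ≤ _
    rw [h6]
    exact (norm_add_le _ _).trans (add_le_add (hle _) le_rfl)
  have hc0 : c₀ ≠ 0 := by
    rintro rfl
    rw [zero_smul] at h2
    exact zero_ne_one h2
  refine ⟨c₀⁻¹, inv_ne_zero hc0, ?_⟩
  rw [← h2, smul_smul, inv_mul_cancel₀ hc0, one_smul]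

end Pool.Agent.Lib.MP_eee3e4_an
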