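import Mathlib

set_option autoImplicit false

/-!
# A Liouville theorem for the spectral radius
-/

namespace Pool.Agent.Lib.MP_eee3e4_an

open Filter Topology ENNReal

set_option linter.unusedSectionVars false

variable {B : Type*} [NormedRing B] [NormedAlgebra ℂ B] [CompleteSpace B]

theorem exists_norm_pow_lt {a : B} {K K' : ℝ} (h : spectralRadius ℂ a ≤ ENNReal.ofReal K)
    (hK : K < K') (hK' : 0 < K') : ∃ m : ℕ, 0 < m ∧ ‖a ^ m‖ < K' ^ m := by
  have h1 : spectralRadius ℂ a < ENNReal.ofReal K' :=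
    lt_of_le_of_lt h ((ENNReal.ofReal_lt_ofReal_iff hK').2 hK)
  have h2 := (spectrum.pow_nnnorm_pow_one_div_tendsto_nhds_spectralRadius a).eventually_lt_const h1
  obtain ⟨m, hm, hm0⟩ := (h2.and (eventually_gt_atTop 0)).exists
  refine ⟨m, hm0, ?_⟩
  have hm0' : (0 : ℝ) < m := by exact_mod_cast hm0
  rw [one_div, ENNReal.rpow_inv_lt_iff hm0', ENNReal.rpow_natCast, ← ENNReal.ofReal_pow hK'.le] at hm
  have h3 : ENNReal.ofReal ‖a ^ m‖ < ENNReal.ofReal (K' ^ m) := by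
    rwa [ofReal_norm]
  exact (ENNReal.ofReal_lt_ofReal_iff (by positivity)).1 h3

theorem spectralRadius_le_of_norm_pow_le {a : B} {L : ℝ} (hL : 0 ≤ L) {n : ℕ} (hn : 0 < n)
    (h : ‖a ^ n‖ ≤ L ^ n) : spectralRadius ℂ a ≤ ENNReal.ofReal L := by
  have h1 := spectrum.pow_nnnorm_pow_one_div_tendsto_nhds_spectralRadius a
  have h2 : Tendsto (fun j : ℕ => n * (j + 1)) atTop atTop :=
    (tendsto_add_atTop_nat 1).const_mul_atTop' hn
  refine le_of_tendsto (h1.comp h2) (Eventually.of_forall fun j => ?_)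
  have hpos : (0 : ℝ) < ((n * (j + 1) : ℕ) : ℝ) := by
    have : 0 < n * (j + 1) := Nat.mul_pos hn (Nat.succ_pos j)
    exact_mod_cast this
  simp only [Function.comp_apply]
  rw [one_div, ENNReal.rpow_inv_le_iff hpos, ENNReal.rpow_natCast, ← ENNReal.ofReal_pow hL]
  have h3 : ENNReal.ofReal ‖a ^ (n * (j + 1))‖ ≤ ENNReal.ofReal (L ^ (n * (j + 1))) := by
    apply ENNReal.ofReal_le_ofReal
    rw [pow_mul, pow_mul]
    exact (norm_pow_le' _ (Nat.succ_pos j)).trans (pow_le_pow_left₀ (norm_nonneg _) h _)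
  rwa [ofReal_norm] at h3

/-- A Dini-type lemma. -/
theorem exists_uniform_pow {S : Set ℂ} (hS : IsCompact S) {H : ℂ → B} (hH : ContinuousOn H S)
    {L : ℝ} (hL : 0 ≤ L) (h : ∀ z ∈ S, ∃ m : ℕ, 0 < m ∧ ‖H z ^ m‖ < L ^ m) :
    ∃ n : ℕ, 0 < n ∧ ∀ z ∈ S, ‖H z ^ n‖ ≤ L ^ n := by
  refine hS.induction_on (p := fun S' => ∃ n : ℕ, 0 < n ∧ ∀ z ∈ S', ‖H z ^ n‖ ≤ L ^ n)
    ⟨1, Nat.one_pos, fun z hz => absurd hz (Set.notMem_empty z)⟩ ?_ ?_ ?_
  · rintro s t hst ⟨n, hn, h⟩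
    exact ⟨n, hn, fun z hz => h z (hst hz)⟩
  · rintro s t ⟨n, hn, h⟩ ⟨m, hm, h'⟩
    refine ⟨n * m, Nat.mul_pos hn hm, ?_⟩
    rintro z (hz | hz)
    · rw [pow_mul, pow_mul]
      exact (norm_pow_le' _ hm).trans (pow_le_pow_left₀ (norm_nonneg _) (h z hz) _)
    · rw [mul_comm, pow_mul, pow_mul]
      exact (norm_pow_le' _ hn).trans (pow_le_pow_left₀ (norm_nonneg _) (h' z hz) _)
  · intro z hz
    obtain ⟨m, hm, hlt⟩ := h z hz
    have h1 : ∀ᶠ w in 𝓝[S] z, ‖H w ^ m‖ < L ^ m :=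
      ((hH z hz).pow m).norm.eventually_lt_const hlt
    exact ⟨_, h1, m, hm, fun w hw => le_of_lt hw⟩

/-- Liouville's theorem for the spectral radius, at the point `1`. -/
theorem spectralRadius_one_le {F : ℂ → B} (hF : Differentiable ℂ F) {C : ℝ}
    (hC : ∀ z, spectralRadius ℂ (F z) ≤ ENNReal.ofReal C) :
    spectralRadius ℂ (F 1) ≤ spectralRadius ℂ (F 0) := by
  -- it suffices to prove it up to `ε`
  have hfin : spectralRadius ℂ (F 0) ≠ ∞ := ne_top_of_le_ne_top ENNReal.ofReal_ne_top (hC 0)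
  refine ENNReal.le_of_forall_pos_le_add fun ε hε _ => ?_
  set ρ : ℝ := (spectralRadius ℂ (F 0)).toReal with hρ
  have hρ0 : 0 ≤ ρ := ENNReal.toReal_nonneg
  have hρ' : spectralRadius ℂ (F 0) = ENNReal.ofReal ρ := (ENNReal.ofReal_toReal hfin).symm
  have hε' : (0 : ℝ) < ε := hε
  have hgoal : spectralRadius ℂ (F 0) + ε = ENNReal.ofReal (ρ + ε) := by
    rw [hρ', ENNReal.ofReal_add hρ0 hε'.le, ENNReal.ofReal_coe_nnreal]
  rw [hgoal]
  set ρ₂ : ℝ := ρ + ε with hρ₂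
  set ρ₁ : ℝ := ρ + ε / 2 with hρ₁
  have h12 : ρ₁ < ρ₂ := by simp only [hρ₁, hρ₂]; linarith
  have h1pos : 0 < ρ₁ := by simp only [hρ₁]; linarith
  have h2pos : 0 < ρ₂ := h1pos.trans h12
  -- small circle
  obtain ⟨n₀, hn₀, hlt₀⟩ := exists_norm_pow_lt (a := F 0) (K := ρ) (K' := ρ₁) hρ'.le
    (by simp only [hρ₁]; linarith) h1pos
  have hcont : Continuous fun z => ‖F z ^ n₀‖ := (hF.continuous.pow n₀).norm
  have hev : ∀ᶠ z in 𝓝 (0 : ℂ), ‖F z ^ n₀‖ < ρ₁ ^ n₀ :=
    (hcont.tendsto 0).eventually_lt_const hlt₀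
  obtain ⟨s', hs', hball⟩ := Metric.eventually_nhds_iff.1 hev
  obtain ⟨s, hs0, hs1, hss⟩ : ∃ s : ℝ, 0 < s ∧ s < 1 ∧ s < s' :=
    ⟨min (s' / 2) (1 / 2), by positivity,
      lt_of_le_of_lt (min_le_right _ _) (by norm_num),
      lt_of_le_of_lt (min_le_left _ _) (by linarith)⟩
  -- the exponent
  obtain ⟨N, hN⟩ : ∃ N : ℕ, s⁻¹ < (ρ₂ / ρ₁) ^ N :=
    pow_unbounded_of_one_lt _ ((one_lt_div h1pos).2 h12)
  have hN' : s⁻¹ * ρ₁ ^ N < ρ₂ ^ N := by
    rw [div_pow, lt_div_iff₀ (by positivity)] at hN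
    exact hN
  -- the large radius
  have hCC : 0 < |C| + 1 := by positivity
  obtain ⟨R, hR1, hR⟩ : ∃ R : ℝ, 1 < R ∧ (|C| + 1) ^ N / ρ₂ ^ N < R :=
    ⟨max 1 ((|C| + 1) ^ N / ρ₂ ^ N) + 1, by
      have := le_max_left 1 ((|C| + 1) ^ N / ρ₂ ^ N)
      linarith, by
      have := le_max_right 1 ((|C| + 1) ^ N / ρ₂ ^ N)
      linarith⟩
  have hR0 : 0 < R := by linarith
  have hR' : R⁻¹ * (|C| + 1) ^ N < ρ₂ ^ N := by
    rw [div_lt_iff₀ (by positivity)] at hR
    rw [inv_mul_lt_iff₀ hR0]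
    exact hR
  -- the auxiliary function
  let H : ℂ → B := fun z => z⁻¹ • F z ^ N
  have hHpow : ∀ z (m : ℕ), H z ^ m = (z⁻¹) ^ m • F z ^ (N * m) := by
    intro z m
    simp only [H]
    rw [smul_pow, pow_mul]
  have hHnorm : ∀ z (m : ℕ), ‖H z ^ m‖ = (‖z‖⁻¹) ^ m * ‖F z ^ (N * m)‖ := by
    intro z m
    rw [hHpow, norm_smul, norm_pow, norm_inv]
  have hgen : ∀ z (m : ℕ) (K : ℝ), 0 < N → 0 < m → 0 ≤ K → ‖F z ^ m‖ ≤ K ^ m →
      ‖z‖⁻¹ * K ^ N < ρ₂ ^ N → ‖H z ^ m‖ < (ρ₂ ^ N) ^ m := by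
    intro z m K hNpos hm hK h1 h2
    rw [hHnorm]
    have h3 : ‖F z ^ (N * m)‖ ≤ (K ^ N) ^ m := by
      rw [mul_comm N m, pow_mul, ← pow_mul K, mul_comm N m, pow_mul K]
      exact (norm_pow_le' _ hNpos).trans (pow_le_pow_left₀ (norm_nonneg _) h1 _)
    calc (‖z‖⁻¹) ^ m * ‖F z ^ (N * m)‖ ≤ (‖z‖⁻¹) ^ m * (K ^ N) ^ m :=
          mul_le_mul_of_nonneg_left h3 (by positivity)
      _ = (‖z‖⁻¹ * K ^ N) ^ m := by rw [mul_pow]
      _ < (ρ₂ ^ N) ^ m := pow_lt_pow_left₀ h2 (by positivity) hm.ne'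
  have hNpos : 0 < N := by
    rcases Nat.eq_zero_or_pos N with h | h
    · exfalso
      rw [h, pow_zero] at hN
      have := one_lt_inv_iff₀.2 ⟨hs0, hs1⟩
      linarith
    · exact h
  -- uniform bound on the two circles
  let S : Set ℂ := Metric.sphere 0 s ∪ Metric.sphere 0 R
  have hScomp : IsCompact S := (isCompact_sphere _ _).union (isCompact_sphere _ _)
  have hne : ∀ z ∈ S, z ≠ 0 := by
    rintro z (hz | hz) h0
    · rw [h0, mem_sphere_zero_iff_norm, norm_zero] at hz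
      linarith
    · rw [h0, mem_sphere_zero_iff_norm, norm_zero] at hz
      linarith
  have hHcont : ContinuousOn H S := by
    intro z hz
    exact ((continuousAt_inv₀ (hne z hz)).smul (hF.continuous.pow N).continuousAt).continuousWithinAt
  obtain ⟨n, hn, hbd⟩ := exists_uniform_pow hScomp hHcont (L := ρ₂ ^ N) (by positivity) (by
    rintro z (hz | hz)
    · rw [mem_sphere_zero_iff_norm] at hz
      refine ⟨n₀, hn₀, hgen z n₀ ρ₁ hNpos hn₀ h1pos.le ?_ ?_⟩
      · apply le_of_lt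
        apply hball
        rw [dist_zero_right, hz]
        exact hss
      · rw [hz]
        exact hN'
    · rw [mem_sphere_zero_iff_norm] at hz
      obtain ⟨m, hm, hlt⟩ := exists_norm_pow_lt (a := F z) (K := C) (K' := |C| + 1) (hC z)
        (by have := le_abs_self C; linarith) hCC
      refine ⟨m, hm, hgen z m (|C| + 1) hNpos hm hCC.le hlt.le ?_⟩
      rw [hz]
      exact hR')
  -- maximum principle on the annulus
  let U : Set ℂ := Metric.ball 0 R \ Metric.closedBall 0 s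
  have hUb : Bornology.IsBounded U := Metric.isBounded_ball.subset Set.sdiff_subset
  have hUopen : IsOpen U := Metric.isOpen_ball.sdiff Metric.isClosed_closedBall
  have hUcl : closure U ⊆ {z | s ≤ ‖z‖ ∧ ‖z‖ ≤ R} := by
    refine closure_minimal ?_ ?_
    · rintro z ⟨hz1, hz2⟩
      rw [mem_ball_zero_iff] at hz1
      rw [mem_closedBall_zero_iff, not_le] at hz2
      exact ⟨hz2.le, hz1.le⟩
    · exact (isClosed_le continuous_const continuous_norm).inter
        (isClosed_le continuous_norm continuous_const)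
  have hUfr : frontier U ⊆ S := by
    intro z hz
    rw [hUopen.frontier_eq] at hz
    obtain ⟨h1, h2⟩ := hUcl hz.1
    by_contra hcon
    apply hz.2
    simp only [S, Set.mem_union, mem_sphere_zero_iff_norm, not_or] at hcon
    refine ⟨?_, ?_⟩
    · rw [mem_ball_zero_iff]
      exact lt_of_le_of_ne h2 hcon.2
    · rw [mem_closedBall_zero_iff, not_le]
      exact lt_of_le_of_ne h1 (Ne.symm hcon.1)
  have hdiff : DiffContOnCl ℂ (fun z => H z ^ n) U := by
    have hd : DifferentiableOn ℂ (fun z => H z ^ n) (closure U) := by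
      intro z hz
      have hz0 : z ≠ 0 := by
        intro h0
        have := (hUcl hz).1
        rw [h0, norm_zero] at this
        linarith
      have h1 : DifferentiableAt ℂ H z :=
        (differentiableAt_inv hz0).smul (((hF z).pow N))
      exact (h1.pow n).differentiableWithinAt
    exact hd.diffContOnCl
  have hmem : (1 : ℂ) ∈ closure U := by
    apply subset_closure
    refine ⟨?_, ?_⟩
    · rw [mem_ball_zero_iff, norm_one]
      exact hR1
    · rw [mem_closedBall_zero_iff, norm_one, not_le]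
      exact hs1
  have hmax := Complex.norm_le_of_forall_mem_frontier_norm_le hUb hdiff
    (fun z hz => hbd z (hUfr hz)) hmem
  rw [hHpow, inv_one, one_pow, one_smul, ← pow_mul] at hmax
  exact spectralRadius_le_of_norm_pow_le h2pos.le (Nat.mul_pos hNpos hn) hmax

/-- Liouville's theorem for the spectral radius. -/
theorem spectralRadius_le_of_bounded {F : ℂ → B} (hF : Differentiable ℂ F) {C : ℝ}
    (hC : ∀ z, spectralRadius ℂ (F z) ≤ ENNReal.ofReal C) (z : ℂ) :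
    spectralRadius ℂ (F z) ≤ spectralRadius ℂ (F 0) := by
  have h := spectralRadius_one_le (F := fun w => F (w * z))
    (hF.comp (differentiable_id.mul_const z)) (C := C) (fun w => hC _)
  simpa using h

end Pool.Agent.Lib.MP_eee3e4_an
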