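import Mathlib

set_option autoImplicit false

/-!
# Projections in von Neumann algebras
-/

namespace Pool.Agent.Lib.MP_eee3e4_an

open InnerProductSpace

variable {H : Type*} [NormedAddCommGroup H] [InnerProductSpace ℂ H] [CompleteSpace H]

/-- The orthogonal projection onto the closure of a subspace. -/
noncomputable def pr (V : Submodule ℂ H) : H →L[ℂ] H := V.topologicalClosure.starProjection

theorem pr_apply_of_mem {V : Submodule ℂ H} {ξ : H} (h : ξ ∈ V) : pr V ξ = ξ :=
  Submodule.starProjection_eq_self_iff.2 (V.le_topologicalClosure h)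

theorem isSelfAdjoint_pr (V : Submodule ℂ H) : IsSelfAdjoint (pr V) :=
  isSelfAdjoint_starProjection _

theorem star_pr (V : Submodule ℂ H) : star (pr V) = pr V := (isSelfAdjoint_pr V).star_eq

theorem pr_mul_pr (V : Submodule ℂ H) : pr V * pr V = pr V :=
  Submodule.isIdempotentElem_starProjection _

theorem eqOn_closure {V : Submodule ℂ H} {x y : H →L[ℂ] H} (h : ∀ ξ ∈ V, x ξ = y ξ) :
    ∀ ξ ∈ V.topologicalClosure, x ξ = y ξ := by
  intro ξ hξ
  have hcl : IsClosed {ξ | x ξ = y ξ} := isClosed_eq x.continuous y.continuous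
  exact closure_minimal (fun ξ hξ => h ξ hξ) hcl hξ

/-- Operators which agree on `V` agree after multiplication with the projection. -/
theorem mul_pr_congr {V : Submodule ℂ H} {x y : H →L[ℂ] H} (h : ∀ ξ ∈ V, x ξ = y ξ) :
    x * pr V = y * pr V := by
  ext ξ
  exact eqOn_closure h _ (Submodule.starProjection_apply_mem _ ξ)

theorem mul_pr_eq_zero {V : Submodule ℂ H} {x : H →L[ℂ] H} (h : ∀ ξ ∈ V, x ξ = 0) :
    x * pr V = 0 := by
  rw [mul_pr_congr (y := 0) h, zero_mul]

theorem pr_mul_eq {V : Submodule ℂ H} {x : H →L[ℂ] H} (h : ∀ ξ, x ξ ∈ V) : pr V * x = x := by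
  ext ξ
  exact pr_apply_of_mem (h ξ)

/-- An operator `y` such that `V` is invariant under `y` and `star y` commutes with the
projection. -/
theorem pr_comm {V : Submodule ℂ H} {y : H →L[ℂ] H} (h1 : ∀ ξ ∈ V, y ξ ∈ V)
    (h2 : ∀ ξ ∈ V, star y ξ ∈ V) : y * pr V = pr V * y := by
  have key : ∀ y : H →L[ℂ] H, (∀ ξ ∈ V, y ξ ∈ V) → pr V * y * pr V = y * pr V := by
    intro y hy
    ext ξ
    have h3 : ∀ η ∈ V.topologicalClosure, y η ∈ V.topologicalClosure := by
      intro η hη
      exact map_mem_closure y.continuous hη (fun a ha => hy a ha)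
    exact Submodule.starProjection_eq_self_iff.2 (h3 _ (Submodule.starProjection_apply_mem _ ξ))
  have h3 := key y h1
  have h4 := congrArg star (key (star y) h2)
  rw [star_mul, star_mul, star_mul, star_star, star_pr, ← mul_assoc] at h4
  rw [← h3, h4]

variable {A : StarSubalgebra ℂ (H →L[ℂ] H)}

theorem mem_of_comm
    (hA : Set.centralizer (Set.centralizer (A : Set (H →L[ℂ] H))) = (A : Set (H →L[ℂ] H)))
    {x : H →L[ℂ] H}
    (h : ∀ y ∈ Set.centralizer (A : Set (H →L[ℂ] H)), y * x = x * y) : x ∈ A := by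
  have : x ∈ (A : Set (H →L[ℂ] H)) := by
    rw [← hA]
    exact h
  exact this

theorem star_mem_centralizer' {y : H →L[ℂ] H}
    (hy : y ∈ Set.centralizer (A : Set (H →L[ℂ] H))) :
    star y ∈ Set.centralizer (A : Set (H →L[ℂ] H)) := by
  intro a ha
  have h1 := hy (star a) (star_mem (S := StarSubalgebra ℂ (H →L[ℂ] H)) ha)
  have h2 := congrArg star h1
  rw [star_mul, star_mul, star_star] at h2
  exact h2.symm

theorem comm_of_mem_centralizer {y a : H →L[ℂ] H}
    (hy : y ∈ Set.centralizer (A : Set (H →L[ℂ] H))) (ha : a ∈ A) : y * a = a * y :=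
  (hy a ha).symm

theorem pr_mem
    (hA : Set.centralizer (Set.centralizer (A : Set (H →L[ℂ] H))) = (A : Set (H →L[ℂ] H)))
    {V : Submodule ℂ H}
    (h : ∀ y ∈ Set.centralizer (A : Set (H →L[ℂ] H)), ∀ ξ ∈ V, y ξ ∈ V) : pr V ∈ A :=
  mem_of_comm hA fun y hy => pr_comm (h y hy) (h _ (star_mem_centralizer' hy))

theorem cfc_mem
    (hA : Set.centralizer (Set.centralizer (A : Set (H →L[ℂ] H))) = (A : Set (H →L[ℂ] H)))
    {x : H →L[ℂ] H} (hx : x ∈ A) (f : ℝ → ℝ) : cfc f x ∈ A := by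
  refine mem_of_comm hA fun y hy => ?_
  have h : Commute x y := (comm_of_mem_centralizer hy hx).symm
  exact (h.cfc_real f).symm

/-- The projection onto the closure of the range. -/
noncomputable def rp (x : H →L[ℂ] H) : H →L[ℂ] H := pr (LinearMap.range (x : H →ₗ[ℂ] H))

theorem rp_mul (x : H →L[ℂ] H) : rp x * x = x := pr_mul_eq fun ξ => ⟨ξ, rfl⟩

theorem star_rp (x : H →L[ℂ] H) : star (rp x) = rp x := star_pr _

theorem rp_mul_rp (x : H →L[ℂ] H) : rp x * rp x = rp x := pr_mul_pr _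

theorem mul_rp_congr {x y z : H →L[ℂ] H} (h : y * x = z * x) : y * rp x = z * rp x := by
  apply mul_pr_congr
  rintro _ ⟨ξ, rfl⟩
  exact congrArg (fun w : H →L[ℂ] H => w ξ) h

theorem mul_rp_eq_zero {x y : H →L[ℂ] H} (h : y * x = 0) : y * rp x = 0 := by
  rw [mul_rp_congr (z := 0) (by rw [h, zero_mul]), zero_mul]

theorem mul_rp_eq {x y : H →L[ℂ] H} (h : y * x = x) : y * rp x = rp x := by
  rw [mul_rp_congr (z := 1) (by rw [h, one_mul]), one_mul]

theorem rp_eq_zero_iff {x : H →L[ℂ] H} : rp x = 0 ↔ x = 0 := by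
  constructor
  · intro h
    rw [← rp_mul x, h, zero_mul]
  · rintro rfl
    have := mul_rp_eq_zero (x := (0 : H →L[ℂ] H)) (y := 1) (by simp)
    rwa [one_mul] at this

theorem rp_mem
    (hA : Set.centralizer (Set.centralizer (A : Set (H →L[ℂ] H))) = (A : Set (H →L[ℂ] H)))
    {x : H →L[ℂ] H} (hx : x ∈ A) : rp x ∈ A := by
  refine pr_mem hA fun y hy ξ hξ => ?_
  obtain ⟨η, rfl⟩ := hξ
  exact ⟨y η, (congrArg (fun w : H →L[ℂ] H => w η) (comm_of_mem_centralizer hy hx)).symm⟩

end Pool.Agent.Lib.MP_eee3e4_an
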