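import Pool.Agent.Lib.MP_eee3e4_an.Factor

set_option autoImplicit false

/-!
# Strong sums of orthogonal partial isometries
-/

namespace Pool.Agent.Lib.MP_eee3e4_an

open InnerProductSpace Filter Topology

variable {H : Type*} [NormedAddCommGroup H] [InnerProductSpace ℂ H] [CompleteSpace H]
variable {A : StarSubalgebra ℂ (H →L[ℂ] H)}

/-- A family of pairwise orthogonal partial isometries. -/
structure IsOrthFam (𝒱 : Set (H →L[ℂ] H)) : Prop where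
  pi : ∀ w ∈ 𝒱, w * star w * w = w
  left : ∀ w₁ ∈ 𝒱, ∀ w₂ ∈ 𝒱, w₁ ≠ w₂ → star w₁ * w₂ = 0
  right : ∀ w₁ ∈ 𝒱, ∀ w₂ ∈ 𝒱, w₁ ≠ w₂ → w₁ * star w₂ = 0

/-- The span of the initial spaces. -/
def initSp (𝒱 : Set (H →L[ℂ] H)) : Submodule ℂ H :=
  Submodule.span ℂ {η | ∃ w ∈ 𝒱, ∃ ξ, star w ξ = η}

/-- The span of the final spaces. -/
def finSp (𝒱 : Set (H →L[ℂ] H)) : Submodule ℂ H :=
  Submodule.span ℂ {η | ∃ w ∈ 𝒱, ∃ ξ, w ξ = η}

theorem span_induct {s : Set H} {x y : H →L[ℂ] H} (h : ∀ ξ ∈ s, x ξ = y ξ) :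
    ∀ ξ ∈ Submodule.span ℂ s, x ξ = y ξ := by
  intro ξ hξ
  induction hξ using Submodule.span_induction with
  | mem η hη => exact h η hη
  | zero => rw [map_zero, map_zero]
  | add x y _ _ hx hy => rw [map_add, map_add, hx, hy]
  | smul c x _ hx => rw [map_smul, map_smul, hx]

theorem mul_initSp_congr {𝒱 : Set (H →L[ℂ] H)} {x y : H →L[ℂ] H}
    (h : ∀ w ∈ 𝒱, x * star w = y * star w) : x * pr (initSp 𝒱) = y * pr (initSp 𝒱) := by
  apply mul_pr_congr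
  apply span_induct
  rintro _ ⟨w, hw, ξ, rfl⟩
  exact congrArg (fun w : H →L[ℂ] H => w ξ) (h w hw)

theorem mul_finSp_congr {𝒱 : Set (H →L[ℂ] H)} {x y : H →L[ℂ] H}
    (h : ∀ w ∈ 𝒱, x * w = y * w) : x * pr (finSp 𝒱) = y * pr (finSp 𝒱) := by
  apply mul_pr_congr
  apply span_induct
  rintro _ ⟨w, hw, ξ, rfl⟩
  exact congrArg (fun w : H →L[ℂ] H => w ξ) (h w hw)

theorem mul_initSp_eq {𝒱 : Set (H →L[ℂ] H)} {x : H →L[ℂ] H}
    (h : ∀ w ∈ 𝒱, x * star w = star w) : x * pr (initSp 𝒱) = pr (initSp 𝒱) := by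
  rw [mul_initSp_congr (y := 1) (fun w hw => by rw [h w hw, one_mul]), one_mul]

theorem mul_finSp_eq {𝒱 : Set (H →L[ℂ] H)} {x : H →L[ℂ] H}
    (h : ∀ w ∈ 𝒱, x * w = w) : x * pr (finSp 𝒱) = pr (finSp 𝒱) := by
  rw [mul_finSp_congr (y := 1) (fun w hw => by rw [h w hw, one_mul]), one_mul]

theorem initSp_mul_star {𝒱 : Set (H →L[ℂ] H)} {w : H →L[ℂ] H} (hw : w ∈ 𝒱) :
    pr (initSp 𝒱) * star w = star w :=
  pr_mul_eq fun ξ => Submodule.subset_span ⟨w, hw, ξ, rfl⟩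

theorem finSp_mul {𝒱 : Set (H →L[ℂ] H)} {w : H →L[ℂ] H} (hw : w ∈ 𝒱) :
    pr (finSp 𝒱) * w = w :=
  pr_mul_eq fun ξ => Submodule.subset_span ⟨w, hw, ξ, rfl⟩

theorem mul_initSp {𝒱 : Set (H →L[ℂ] H)} {w : H →L[ℂ] H} (hw : w ∈ 𝒱) :
    w * pr (initSp 𝒱) = w := by
  have := congrArg star (initSp_mul_star hw)
  rwa [star_mul, star_star, star_pr] at this

theorem star_mul_finSp {𝒱 : Set (H →L[ℂ] H)} {w : H →L[ℂ] H} (hw : w ∈ 𝒱) :
    star w * pr (finSp 𝒱) = star w := by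
  have := congrArg star (finSp_mul hw)
  rwa [star_mul, star_pr] at this

theorem initSp_mem
    (hA : Set.centralizer (Set.centralizer (A : Set (H →L[ℂ] H))) = (A : Set (H →L[ℂ] H)))
    {𝒱 : Set (H →L[ℂ] H)} (h𝒱 : ∀ w ∈ 𝒱, w ∈ A) : pr (initSp 𝒱) ∈ A := by
  refine pr_mem hA fun y hy ξ hξ => ?_
  induction hξ using Submodule.span_induction with
  | mem η hη =>
    obtain ⟨w, hw, ξ, rfl⟩ := hη
    refine Submodule.subset_span ⟨w, hw, y ξ, ?_⟩
    exact (congrArg (fun w : H →L[ℂ] H => w ξ)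
      (comm_of_mem_centralizer hy (star_mem (h𝒱 w hw)))).symm
  | zero => rw [map_zero]; exact zero_mem _
  | add x y _ _ hx hy => rw [map_add]; exact add_mem hx hy
  | smul c x _ hx => rw [map_smul]; exact Submodule.smul_mem _ _ hx

theorem finSp_mem
    (hA : Set.centralizer (Set.centralizer (A : Set (H →L[ℂ] H))) = (A : Set (H →L[ℂ] H)))
    {𝒱 : Set (H →L[ℂ] H)} (h𝒱 : ∀ w ∈ 𝒱, w ∈ A) : pr (finSp 𝒱) ∈ A := by
  refine pr_mem hA fun y hy ξ hξ => ?_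
  induction hξ using Submodule.span_induction with
  | mem η hη =>
    obtain ⟨w, hw, ξ, rfl⟩ := hη
    refine Submodule.subset_span ⟨w, hw, y ξ, ?_⟩
    exact (congrArg (fun w : H →L[ℂ] H => w ξ)
      (comm_of_mem_centralizer hy (h𝒱 w hw))).symm
  | zero => rw [map_zero]; exact zero_mem _
  | add x y _ _ hx hy => rw [map_add]; exact add_mem hx hy
  | smul c x _ hx => rw [map_smul]; exact Submodule.smul_mem _ _ hx

section Sum

variable {𝒱 : Set (H →L[ℂ] H)} (h𝒱 : IsOrthFam 𝒱)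

include h𝒱

/-- Bessel's inequality. -/
theorem bessel (F : Finset 𝒱) (ξ : H) : ∑ w ∈ F, ‖w.1 ξ‖ ^ 2 ≤ ‖ξ‖ ^ 2 := by
  classical
  let E : H →L[ℂ] H := ∑ w ∈ F, star w.1 * w.1
  have hEsa : star E = E := by
    simp only [E]
    rw [star_sum]
    refine Finset.sum_congr rfl fun w _ => ?_
    rw [star_mul, star_star]
  have hEE : E * E = E := by
    simp only [E]
    rw [Finset.sum_mul]
    refine Finset.sum_congr rfl fun w hw => ?_
    rw [Finset.mul_sum, Finset.sum_eq_single w]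
    · rw [mul_assoc, ← mul_assoc w.1, h𝒱.pi w.1 w.2]
    · intro w' _ hne
      rw [mul_assoc, ← mul_assoc w.1, h𝒱.right w.1 w.2 w'.1 w'.2
        (fun h => hne (Subtype.ext h.symm)), zero_mul, mul_zero]
    · intro h
      exact absurd hw h
  have hinner : ∀ w : 𝒱, ((‖w.1 ξ‖ ^ 2 : ℝ) : ℂ) = inner ℂ ((star w.1 * w.1) ξ) ξ := by
    intro w
    rw [ContinuousLinearMap.star_eq_adjoint, mul_apply_eq_comp,
      ContinuousLinearMap.adjoint_inner_left, inner_self_eq_norm_sq_to_K]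
    push_cast
    rfl
  have h1 : ((∑ w ∈ F, ‖w.1 ξ‖ ^ 2 : ℝ) : ℂ) = inner ℂ (E ξ) ξ := by
    rw [Complex.ofReal_sum, Finset.sum_congr rfl fun w _ => hinner w, ← sum_inner]
    simp only [E]
    rw [sum_apply]
  have h2 : inner ℂ (E ξ) ξ = ((‖E ξ‖ ^ 2 : ℝ) : ℂ) := by
    have hEadj : ContinuousLinearMap.adjoint E = E := hEsa
    calc inner ℂ (E ξ) ξ = inner ℂ (E (E ξ)) ξ := by rw [← mul_apply_eq_comp, hEE]
      _ = inner ℂ (ContinuousLinearMap.adjoint E (E ξ)) ξ := by rw [hEadj]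
      _ = inner ℂ (E ξ) (E ξ) := ContinuousLinearMap.adjoint_inner_left _ _ _
      _ = ((‖E ξ‖ ^ 2 : ℝ) : ℂ) := by
        rw [inner_self_eq_norm_sq_to_K]
        push_cast
        rfl
  have h3 : ∑ w ∈ F, ‖w.1 ξ‖ ^ 2 = ‖E ξ‖ ^ 2 := by
    have := h1.trans h2
    exact_mod_cast this
  have h4 : ‖E ξ‖ ^ 2 ≤ ‖E ξ‖ * ‖ξ‖ := by
    have h5 : ‖((‖E ξ‖ ^ 2 : ℝ) : ℂ)‖ ≤ ‖E ξ‖ * ‖ξ‖ := by
      rw [← h2]
      exact norm_inner_le_norm _ _
    rwa [Complex.norm_real, Real.norm_of_nonneg (by positivity)] at h5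
  have h6 : ‖E ξ‖ ≤ ‖ξ‖ := by
    rcases eq_or_lt_of_le (norm_nonneg (E ξ)) with h | h
    · rw [← h]
      exact norm_nonneg _
    · rw [pow_two] at h4
      exact le_of_mul_le_mul_left h4 h
  rw [h3]
  exact pow_le_pow_left₀ (norm_nonneg _) h6 2

theorem orthogonalFamily : OrthogonalFamily ℂ (fun w : 𝒱 => LinearMap.range (w.1 : H →ₗ[ℂ] H))
    (fun w => (LinearMap.range (w.1 : H →ₗ[ℂ] H)).subtypeₗᵢ) := by
  intro w w' hne
  rintro ⟨_, ξ, rfl⟩ ⟨_, η, rfl⟩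
  change inner ℂ (w.1 ξ) (w'.1 η) = 0
  rw [← ContinuousLinearMap.adjoint_inner_right, ← ContinuousLinearMap.star_eq_adjoint]
  have h1 := h𝒱.left w.1 w.2 w'.1 w'.2 (fun h => hne (Subtype.ext h))
  have h2 : star w.1 (w'.1 η) = 0 := congrArg (fun w : H →L[ℂ] H => w η) h1
  rw [h2, inner_zero_right]

theorem norm_sum_sq (F : Finset 𝒱) (ξ : H) : ‖∑ w ∈ F, w.1 ξ‖ ^ 2 = ∑ w ∈ F, ‖w.1 ξ‖ ^ 2 :=
  (orthogonalFamily h𝒱).norm_sum (fun w => ⟨w.1 ξ, ξ, rfl⟩) F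

theorem summable_apply (ξ : H) : Summable fun w : 𝒱 => w.1 ξ := by
  have h := ((orthogonalFamily h𝒱).summable_iff_norm_sq_summable
    (fun w => ⟨w.1 ξ, ξ, rfl⟩)).2 (by
      refine summable_of_sum_le (fun w => by positivity) (c := ‖ξ‖ ^ 2) fun F => ?_
      exact bessel h𝒱 F ξ)
  exact h

/-- The strong sum of the family. -/
noncomputable def strongSum : H →L[ℂ] H :=
  LinearMap.mkContinuous
    { toFun := fun ξ => ∑' w : 𝒱, w.1 ξ
      map_add' := fun ξ η => by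
        rw [← (summable_apply h𝒱 ξ).tsum_add (summable_apply h𝒱 η)]
        exact tsum_congr fun w => map_add _ _ _
      map_smul' := fun c ξ => by
        rw [RingHom.id_apply, ← tsum_const_smul'']
        exact tsum_congr fun w => map_smul _ _ _ } 1 (by
    intro ξ
    rw [one_mul]
    change ‖∑' w : 𝒱, w.1 ξ‖ ≤ ‖ξ‖
    refine le_of_tendsto (summable_apply h𝒱 ξ).hasSum.norm (Eventually.of_forall fun F => ?_)
    have h1 := (norm_sum_sq h𝒱 F ξ).le.trans (bessel h𝒱 F ξ)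
    exact le_of_sq_le_sq h1 (norm_nonneg _))

theorem strongSum_apply (ξ : H) : strongSum h𝒱 ξ = ∑' w : 𝒱, w.1 ξ := rfl

theorem strongSum_mul_star {w : H →L[ℂ] H} (hw : w ∈ 𝒱) :
    strongSum h𝒱 * star w = w * star w := by
  ext ξ
  change strongSum h𝒱 (star w ξ) = w (star w ξ)
  rw [strongSum_apply, tsum_eq_single (⟨w, hw⟩ : 𝒱)]
  intro w' hne
  exact congrArg (fun w : H →L[ℂ] H => w ξ)
    (h𝒱.right w'.1 w'.2 w hw (fun h => hne (Subtype.ext h)))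

theorem star_mul_strongSum {w : H →L[ℂ] H} (hw : w ∈ 𝒱) :
    star w * strongSum h𝒱 = star w * w := by
  ext ξ
  change star w (strongSum h𝒱 ξ) = star w (w ξ)
  rw [strongSum_apply, ContinuousLinearMap.map_tsum _ (summable_apply h𝒱 ξ),
    tsum_eq_single (⟨w, hw⟩ : 𝒱)]
  intro w' hne
  exact congrArg (fun w : H →L[ℂ] H => w ξ)
    (h𝒱.left w hw w'.1 w'.2 (fun h => hne (Subtype.ext h.symm)))

theorem strongSum_mem
    (hA : Set.centralizer (Set.centralizer (A : Set (H →L[ℂ] H))) = (A : Set (H →L[ℂ] H)))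
    (h𝒱A : ∀ w ∈ 𝒱, w ∈ A) : strongSum h𝒱 ∈ A := by
  refine mem_of_comm hA fun y hy => ?_
  ext ξ
  change y (strongSum h𝒱 ξ) = strongSum h𝒱 (y ξ)
  rw [strongSum_apply, strongSum_apply, ContinuousLinearMap.map_tsum _ (summable_apply h𝒱 ξ)]
  refine tsum_congr fun w => ?_
  exact congrArg (fun w : H →L[ℂ] H => w ξ) (comm_of_mem_centralizer hy (h𝒱A w.1 w.2))

theorem strongSum_mul_initSp : strongSum h𝒱 * pr (initSp 𝒱) = strongSum h𝒱 := by
  ext ξ
  change strongSum h𝒱 (pr (initSp 𝒱) ξ) = strongSum h𝒱 ξ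
  rw [strongSum_apply, strongSum_apply]
  refine tsum_congr fun w => ?_
  exact congrArg (fun w : H →L[ℂ] H => w ξ) (mul_initSp w.2)

theorem finSp_mul_strongSum : pr (finSp 𝒱) * strongSum h𝒱 = strongSum h𝒱 := by
  ext ξ
  change pr (finSp 𝒱) (strongSum h𝒱 ξ) = strongSum h𝒱 ξ
  rw [strongSum_apply, ContinuousLinearMap.map_tsum _ (summable_apply h𝒱 ξ)]
  refine tsum_congr fun w => ?_
  exact congrArg (fun w : H →L[ℂ] H => w ξ) (finSp_mul w.2)

theorem star_strongSum_mul_strongSum :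
    star (strongSum h𝒱) * strongSum h𝒱 = pr (initSp 𝒱) := by
  have h1 : star (strongSum h𝒱) * strongSum h𝒱 * pr (initSp 𝒱) = pr (initSp 𝒱) := by
    apply mul_initSp_eq
    intro w hw
    have h2 := congrArg star (star_mul_strongSum h𝒱 hw)
    rw [star_mul, star_mul, star_star] at h2
    rw [mul_assoc, strongSum_mul_star h𝒱 hw, ← mul_assoc, h2]
    have h3 := congrArg star (h𝒱.pi w hw)
    rw [star_mul, star_mul, star_star] at h3
    rw [mul_assoc]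
    exact h3
  rwa [mul_assoc, strongSum_mul_initSp] at h1

theorem strongSum_mul_star_strongSum :
    strongSum h𝒱 * star (strongSum h𝒱) = pr (finSp 𝒱) := by
  have h1 : strongSum h𝒱 * star (strongSum h𝒱) * pr (finSp 𝒱) = pr (finSp 𝒱) := by
    apply mul_finSp_eq
    intro w hw
    have h2 := congrArg star (star_mul_strongSum h𝒱 hw)
    rw [star_mul, star_mul, star_star] at h2
    rw [mul_assoc, h2, ← mul_assoc, strongSum_mul_star h𝒱 hw]
    exact h𝒱.pi w hw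
  have h2 := congrArg star (finSp_mul_strongSum h𝒱)
  rw [star_mul, star_pr] at h2
  rwa [mul_assoc, h2] at h1

end Sum

end Pool.Agent.Lib.MP_eee3e4_an
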