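import Pool.Agent.Lib.MP_eee3e4_an.Liouville

set_option autoImplicit false

/-!
# Elements which do not change the spectral radius lie in the radical
-/

namespace Pool.Agent.Lib.MP_eee3e4_an

open Filter Topology ENNReal

set_option linter.unusedSectionVars false

variable {B : Type*} [NormedRing B] [NormedAlgebra ℂ B] [CompleteSpace B]

theorem spectralRadius_conj (g : Bˣ) (a : B) :
    spectralRadius ℂ ((g : B) * a * (↑g⁻¹ : B)) = spectralRadius ℂ a := by
  unfold spectralRadius
  rw [spectrum.units_conjugate]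

theorem spectralRadius_neg (a : B) : spectralRadius ℂ (-a) = spectralRadius ℂ a := by
  unfold spectralRadius
  rw [← spectrum.neg_eq]
  apply le_antisymm
  · refine iSup₂_le fun k hk => ?_
    rw [Set.mem_neg] at hk
    refine le_trans ?_ (le_iSup₂ (-k) hk)
    rw [nnnorm_neg]
  · refine iSup₂_le fun k hk => ?_
    refine le_trans ?_ (le_iSup₂ (-k) (by rwa [Set.mem_neg, neg_neg]))
    rw [nnnorm_neg]

/-- If `q + y` is quasinilpotent for all quasinilpotent `y`, then `q` lies in the Jacobson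
radical. -/
theorem mem_jacobson_of_forall {q : B}
    (h : ∀ y : B, spectralRadius ℂ y = 0 → spectralRadius ℂ (q + y) = 0) :
    q ∈ (⊥ : Ideal B).jacobson := by
  have hq : spectralRadius ℂ q = 0 := by
    have := h 0 spectrum.spectralRadius_zero
    rwa [add_zero] at this
  rw [Ideal.jacobson, Submodule.mem_sInf]
  rintro J ⟨-, hJ⟩
  by_contra hqJ
  have hJtop : J ≠ ⊤ := hJ.ne_top
  have hunit : ∀ x ∈ J, ¬ IsUnit x := fun x hx hu => hJtop (Ideal.eq_top_of_isUnit_mem J hx hu)
  -- any element outside `J` generates `B` together with `J`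
  have hgen : ∀ x, x ∉ J → ∃ b : B, 1 - b * x ∈ J := by
    intro x hx
    have h1 : J ⊔ Submodule.span B {x} = ⊤ := by
      apply hJ.out.2
      refine lt_of_le_of_ne le_sup_left fun heq => hx ?_
      rw [heq]
      exact Submodule.mem_sup_right (Submodule.mem_span_singleton_self x)
    have h2 : (1 : B) ∈ J ⊔ Submodule.span B {x} := by rw [h1]; trivial
    obtain ⟨j, hj, y, hy, hjy⟩ := Submodule.mem_sup.1 h2
    obtain ⟨b, rfl⟩ := Submodule.mem_span_singleton.1 hy
    refine ⟨b, ?_⟩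
    rw [← hjy, smul_eq_mul, add_sub_cancel_right]
    exact hj
  have hmul : ∀ (b x : B), x ∈ J → b * x ∈ J := fun b x hx => J.smul_mem b hx
  have hsm : ∀ (t : ℂ) (x : B), x ∈ J → t • x ∈ J := fun t x hx => by
    have := hmul (t • (1 : B)) x hx
    rwa [smul_mul_assoc, one_mul] at this
  by_cases hcase : ∃ c ∈ J, c * q ∉ J
  · obtain ⟨c₀, hc₀, hc₀q⟩ := hcase
    obtain ⟨b, hb⟩ := hgen _ hc₀q
    set c := b * c₀ with hc
    have hcJ : c ∈ J := hmul _ _ hc₀
    have hcq : 1 - c * q ∈ J := by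
      rw [hc, mul_assoc]
      exact hb
    -- a small parameter
    obtain ⟨t, ht0, ht1⟩ : ∃ t : ℝ, 0 < t ∧ t * ‖c‖ < 1 := by
      refine ⟨1 / (‖c‖ + 1), by positivity, ?_⟩
      rw [one_div_mul_eq_div, div_lt_one (by positivity)]
      linarith
    have hnorm : ‖(t : ℂ) • c‖ < 1 := by
      rw [norm_smul, Complex.norm_real, Real.norm_of_nonneg ht0.le]
      exact ht1
    obtain ⟨g, hg⟩ := isUnit_one_sub_of_norm_lt_one hnorm
    have hginv : (↑g⁻¹ : B) = 1 + (t : ℂ) • ((↑g⁻¹ : B) * c) := by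
      have h1 : (↑g⁻¹ : B) * (1 - (t : ℂ) • c) = 1 := by
        rw [← hg]
        exact g.inv_mul
      rw [mul_sub, mul_one, mul_smul_comm] at h1
      rw [← h1]
      abel
    set y : B := (g : B) * (-q) * (↑g⁻¹ : B) with hy
    have hry : spectralRadius ℂ y = 0 := by
      rw [hy, spectralRadius_conj, spectralRadius_neg, hq]
    have hx := h y hry
    -- `t - (q + y) ∈ J`
    have hxy : q + y = ((t : ℂ) • (c * q - q * c)) * (↑g⁻¹ : B) := by
      have h1 : (q + y) * (g : B) = (t : ℂ) • (c * q - q * c) := by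
        rw [hy, add_mul, mul_assoc ((g : B) * (-q)), g.inv_mul, mul_one, hg]
        rw [mul_sub, sub_mul, mul_one, one_mul, smul_mul_assoc, mul_smul_comm, smul_sub, mul_neg,
          smul_neg]
        abel
      rw [← h1, mul_assoc, g.mul_inv, mul_one]
    have hmemJ : (t : ℂ) • (1 : B) - (q + y) ∈ J := by
      have h2 : (t : ℂ) • (1 : B) - (q + y) = (t : ℂ) • (1 - c * q) + (t : ℂ) • (q * c) -
          ((t : ℂ) • (c * q - q * c)) * ((t : ℂ) • (↑g⁻¹ : B)) * c := by
        rw [hxy]
        conv_lhs => rw [hginv]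
        rw [mul_add, mul_one, smul_sub, smul_sub, mul_assoc _ ((t : ℂ) • (↑g⁻¹ : B)) c,
          smul_mul_assoc (t : ℂ) (↑g⁻¹ : B) c]
        abel
      rw [h2]
      exact J.sub_mem (J.add_mem (hsm _ _ hcq) (hsm _ _ (hmul _ _ hcJ))) (hmul _ _ hcJ)
    have hspec : (t : ℂ) ∈ spectrum ℂ (q + y) := by
      rw [spectrum.mem_iff, Algebra.algebraMap_eq_smul_one]
      exact hunit _ hmemJ
    have h3 : (‖(t : ℂ)‖₊ : ℝ≥0∞) ≤ spectralRadius ℂ (q + y) :=
      le_iSup₂ (f := fun k (_ : k ∈ spectrum ℂ (q + y)) => (‖k‖₊ : ℝ≥0∞)) (t : ℂ) hspec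
    rw [hx] at h3
    have h4 : ‖(t : ℂ)‖₊ = 0 := by simpa using h3
    rw [nnnorm_eq_zero] at h4
    exact ht0.ne' (by exact_mod_cast h4)
  · push Not at hcase
    obtain ⟨s, hs⟩ := hgen q hqJ
    have hpow : ∀ n : ℕ, 1 - s ^ n * q ^ n ∈ J := by
      intro n
      induction n with
      | zero => simp
      | succ n ih =>
        have h1 : ∀ (m : ℕ), ∀ x ∈ J, x * q ^ m ∈ J := by
          intro m
          induction m with
          | zero => intro x hx; simpa using hx
          | succ m ihm =>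
            intro x hx
            rw [pow_succ, ← mul_assoc]
            exact hcase _ (ihm x hx)
        have h2 : 1 - s ^ (n + 1) * q ^ (n + 1) =
            (1 - s ^ n * q ^ n) + s ^ n * ((1 - s * q) * q ^ n) := by
          rw [pow_succ, pow_succ']
          noncomm_ring
        rw [h2]
        exact J.add_mem ih (hmul _ _ (h1 n _ hs))
    obtain ⟨m, hm, hlt⟩ := exists_norm_pow_lt (a := q) (K := 0) (K' := (‖s‖ + 1)⁻¹)
      (by rw [hq]; simp) (by positivity) (by positivity)
    refine hunit _ (hpow m) (isUnit_one_sub_of_norm_lt_one ?_)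
    calc ‖s ^ m * q ^ m‖ ≤ ‖s ^ m‖ * ‖q ^ m‖ := norm_mul_le _ _
      _ ≤ (‖s‖ + 1) ^ m * ‖q ^ m‖ := by
          refine mul_le_mul_of_nonneg_right ?_ (norm_nonneg _)
          exact (norm_pow_le' _ hm).trans (pow_le_pow_left₀ (norm_nonneg _) (by linarith) _)
      _ < (‖s‖ + 1) ^ m * ((‖s‖ + 1)⁻¹) ^ m := by
          exact mul_lt_mul_of_pos_left hlt (by positivity)
      _ = 1 := by
          rw [← mul_pow, mul_inv_cancel₀ (by positivity), one_pow]

end Pool.Agent.Lib.MP_eee3e4_an
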